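import Pool.Agent.H99.D2.Fzh

/-!
# The numbers of the stages, the slope of the place smaller

`StgM`: the slopes and the times of the stages.
-/

set_option autoImplicit false

namespace Pool.PN18

/-- **The numbers of the stages**, the slope of the place smaller, the times natural numbers. -/
structure StgM (a b : ℝ) (K M : ℕ) (x : ℕ → ℝ) (τ : ℕ → ℕ) : Prop where
  x0 : x 0 = a
  xs : ∀ k < M, x (k + 1) < x k
  τs : ∀ k < M, τ (k + 1) ≤ τ k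
  pos : ∀ k ≤ M, 0 < x k ∧ 1 ≤ τ k ∧ 1 ≤ x k * τ k
  u1 : ∀ k < M, ∀ i i' : ℕ, x (k + 1) < i → (i : ℝ) ≤ x k → x (k + 1) < i' → (i' : ℝ) ≤ x k →
    i = i'
  n1 : ∀ k < M, ∀ j j' : ℕ, x (k + 1) * (b / a) < j → (j : ℝ) ≤ x k * (b / a) →
    x (k + 1) * (b / a) < j' → (j' : ℝ) ≤ x k * (b / a) → j = j'
  t1 : ∀ k < M, ∀ i : ℕ, i ≤ K + 2 → x k < i → (i - x (k + 1)) * τ (k + 1) + 2 ≤ (i - x k) * τ k
  t2 : ∀ k < M, ∀ j : ℕ, j ≤ K + 2 → x k * (b / a) < j →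
    (j - x (k + 1) * (b / a)) * τ (k + 1) + 2 ≤ (j - x k * (b / a)) * τ k
  t3 : ∀ k < M, ∀ i : ℕ, (i : ℝ) ≤ x (k + 1) → (i - x (k + 1)) * τ (k + 1) + 2 ≤ 0
  t4 : ∀ k < M, ∀ j : ℕ, (j : ℝ) ≤ x (k + 1) * (b / a) →
    (j - x (k + 1) * (b / a)) * τ (k + 1) + 2 ≤ 0
  fin : a + 1 ≤ (1 - x M) * τ M

end Pool.PN18
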