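import Pool.Agent.H33.PN.Bxa
import Pool.Agent.H30.LPT.Sbx

/-!
# A sub-box of windows without look-ahead, for two jets

`dgn`, `qF`, `qG`: the pairs of jets of the first and of the second kind. `box_cls`: in a subclass
there is a sub-box of windows without look-ahead, given the near path.
-/

set_option autoImplicit false

namespace Pool.PN18

open Finset Real MvPolynomial
open Pool.Agent.H49.Ent Pool.Agent.H32.Dense Pool.STK Pool.KA Pool.KSAT Pool.K2S Pool.PB Pool.GEN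
open Pool.S6C Pool.RCD Pool.LA91 Pool.OWN68 Pool.AJW Pool.AJX Pool.CHT Pool.LPK12 Pool.TWO28
open Pool.GRD (LbP)
open Pool.LP30 (paQ)
open Pool.ALT (Fml DpI)

/-- The digits of the jet of order `i`, natural at the window `o` up to `e`, the level `p` at `b₀`. -/
noncomputable def dgn (p b₀ a : ℝ) (i : ℕ) (o e : ℝ) : ℝ := p + a * (o - b₀) - i * o - e

/-- The pair of jets of the first kind. -/
noncomputable def qF {m : ℕ} (c : ℕ → Fin m) (r : ℕ) (d : ∀ (J : ℕ) (F : Fam m J), LbD F)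
    (κ₂ : Fin m) (b₀ vn : ℝ) (p₁ p₂ a b : ℝ) (i j : ℕ) (o e : ℝ) : Qt m (ℤ × ℤ) :=
  (qJet m ((range r).image c) (c r) i b₀ p₁ (dgn p₁ b₀ a i o e)).prod
    (qD m d κ₂ j vn (dgn p₂ b₀ b j o e))

/-- The pair of jets of the second kind. -/
noncomputable def qG {m : ℕ} (c : ℕ → Fin m) (r : ℕ) (d : ∀ (J : ℕ) (F : Fam m J), LbD F)
    (κ₂ : Fin m) (b₀ vn : ℝ) (p₁ p₂ : ℝ) (i j : ℕ) (x₁ x₂ : ℝ) : Qt m (ℤ × ℤ) :=
  (qJet m ((range r).image c) (c r) i b₀ p₁ (p₁ - i * b₀ + x₁)).prod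
    (qD m d κ₂ j vn (p₂ - j * b₀ + x₂))

theorem dgn_le {p b₀ a : ℝ} {i : ℕ} {o o' e : ℝ} (hi : (i : ℝ) ≤ a) (ho : o' ≤ o) :
    dgn p b₀ a i o' e ≤ dgn p b₀ a i o e := by
  unfold dgn
  have h1 : 0 ≤ (a - i) * (o - o') := mul_nonneg (by linarith) (by linarith)
  nlinarith

/-- **A sub-box of windows without look-ahead**, for the jets of the first and the second kind, given
the near path. -/
theorem box_cls {M : ℕ} (hM : 2 ≤ M) {n p : ℕ} {m : ℕ} {S : PCl m} (hne : S.Ne)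
    (hpos : ∀ (τ : ℝ) (J : ℕ) (F : Fam m J) (A : F.Ω → Prop), S.St τ J F A → 0 < Pe F.p A)
    {C₀ : ℝ} (htm : TmC S C₀) {c : ℕ → Fin m} {r : ℕ} (_hr : 1 ≤ r) {sn : ℕ → ℝ → ℝ} {G : Set ℝ}
    (hch : ChG S c (r + 1) sn G) {g : ℕ → ℝ} (hgm : ∀ x y, x < y → y ≤ M ^ n → g x < g y)
    {w X φ lam kf : ℝ} {v₀ : ℕ → ℕ → ℝ} {K : ℕ} (hgw : g (M ^ n) ≤ w)
    (H : ∀ x ≤ M ^ n, JfN r sn G (g x) w X φ lam kf (v₀ x) K)
    (hfl : ∀ x ≤ M ^ n, ∀ y ≤ M ^ n, ∀ i < r, |sn i (g x) - sn i (g y) - (g x - g y)| ≤ φ)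
    (hrn : ∀ x ≤ M ^ n, ∃ ηx : ℝ, RNum S (fun J F => ptr F J) (vg (g x)) ηx) {C : ℕ → ℝ}
    (hC : ∀ x ≤ M ^ n, PaN r sn (g x) X φ (fun l => C l + g x) C)
    {d : ∀ (J : ℕ) (F : Fam m J), LbD F} {κ₂ : Fin m} {D : ℕ} {En Rn Pn' vn : ℝ}
    (hd : LbF S d ((range (r + 1)).image c) κ₂ D En Rn vn Pn') {a b p₂ e₀ : ℝ} (ha : 0 ≤ a)
    (_hb : 0 ≤ b) (he₀ : 0 ≤ e₀)
    (hsn : ∀ x ≤ M ^ n, |sn r (g x) - sn r (g 0) - a * (g x - g 0)| ≤ e₀)
    -- the natural jets of the label `d J F`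
    (hND : ∀ y x, y ≤ x → x ≤ M ^ n → ∀ j : ℕ, (j : ℝ) ≤ b →
      Few S (fun J F => ptr F J) (vg (g x)) (fun _ F => F.T)
        (paQ m c r (g y) (fun l => sn l (g y)) (fun l => C l + g y) C)
        (qD m d κ₂ j vn (dgn p₂ (g 0) b j (g x) e₀)))
    {ii jj : Fin p → ℕ} (hii : ∀ i, (ii i : ℝ) ≤ a) (hjj : ∀ i, (jj i : ℝ) ≤ b) {i₀ j₀ : ℕ}
    (_hi₀ : (i₀ : ℝ) ≤ a) (hj₀ : (j₀ : ℝ) ≤ b) {q C₁ C₂ ε₁ ℓ₁ ℓ₂ : ℝ} (hq : 0 < q) (hC₁ : 0 ≤ C₁)
    (hC₂ : 0 ≤ C₂) (hε₁ : 0 < ε₁) (hℓ₁ : 0 ≤ ℓ₁) (hℓ₂ : 0 ≤ ℓ₂)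
    (hX : (a + 1) * (g (M ^ n) - g 0) + ℓ₁ * q + e₀ + 4 * φ ≤ X)
    (h1 : (a + b) * (g (M ^ n) - g 0) < C₁ * q)
    (h2 : (ℓ₁ + ℓ₂) * q + 2 * e₀ * (M : ℝ) ^ n < C₂ * q)
    (h3 : p * C₁ + 2 * C₂ + 1 ≤ ε₁ * n) :
    ∃ S' : PCl m, S'.Ne ∧
      (∀ (τ : ℝ) (J : ℕ) (F : Fam m J) (A : F.Ω → Prop), S'.St τ J F A → S.St τ J F A) ∧
      ∃ s < n, ∃ k < M ^ s, ∀ l u, l = k * M ^ (n - s) → u = M ^ (n - s - 1) →
      ∀ α β γ, α ≤ β → β ≤ γ → γ ≤ M →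
      (∀ i : Fin p, Nla S' (paQ m c r (g (l + α * u)) (fun l' => sn l' (g (l + α * u)))
          (fun l' => C l' + g (l + α * u)) C)
        (qF c r d κ₂ (g 0) vn (sn r (g 0)) p₂ a b (ii i) (jj i) (g (l + γ * u)) e₀)
        (qF c r d κ₂ (g 0) vn (sn r (g 0)) p₂ a b (ii i) (jj i) (g (l + β * u)) e₀)
        (g (l + α * u)) (g (l + β * u)) (ε₁ / (M : ℝ) ^ s * q)) ∧
      Nlb S' (paQ m c r (g (l + α * u)) (fun l' => sn l' (g (l + α * u)))
          (fun l' => C l' + g (l + α * u)) C)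
        (qG c r d κ₂ (g 0) vn (sn r (g 0)) p₂ i₀ j₀ (ℓ₁ / (M : ℝ) ^ s * q)
          (ℓ₂ / (M : ℝ) ^ s * q)) (g (l + α * u)) (g (l + β * u)) (ε₁ / (M : ℝ) ^ s * q) := by
  obtain ⟨η, hη, key⟩ := subbox_cls M hM n p
  have hM1 : (1 : ℝ) ≤ M := by
    have : (2 : ℝ) ≤ M := by exact_mod_cast hM
    linarith
  have hM0 : (0 : ℝ) < M := by linarith
  have hl2 : 0 < Real.log 2 := Real.log_pos one_lt_two
  have hl21 : Real.log 2 ≤ 1 := by
    have := Real.log_two_lt_d9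
    linarith
  have hgle : ∀ x y, x ≤ y → y ≤ M ^ n → g x ≤ g y := fun x y hxy hy => by
    rcases Nat.lt_or_ge x y with h | h
    · exact (hgm x y h hy).le
    · obtain rfl : x = y := le_antisymm hxy h
      exact le_rfl
  have hxw : ∀ x ≤ M ^ n, g x ≤ w := fun x hx => (hgle x _ hx le_rfl).trans hgw
  have hG : ∀ x ≤ M ^ n, g x ∈ G := fun x hx => (H x hx).vG
  have h0 : (0 : ℕ) ≤ M ^ n := Nat.zero_le _
  have hφ := (H 0 h0).φ0
  have hg1 : ∀ x ≤ M ^ n, g x ≤ 1 := fun x hx => by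
    obtain ⟨u, rd, hrd, hc⟩ := hch.ch _ (hG x hx)
    exact hc.u0.le
  have hyT : ∀ (J : ℕ) (F : Fam m J), ∃ φ : ℕ × F.ζ → ℕ, ∀ ω, F.T ω = φ (F.W ω) :=
    fun J F => ⟨Prod.fst, fun _ => rfl⟩
  have hD0 : 0 ≤ g (M ^ n) - g 0 := sub_nonneg.2 (hgle 0 _ h0 le_rfl)
  have haD : 0 ≤ a * (g (M ^ n) - g 0) := mul_nonneg ha hD0
  have hℓq : 0 ≤ ℓ₁ * q := mul_nonneg hℓ₁ hq.le
  -- from the time to the whole side information
  have tw : ∀ {U U' : Type} {Q : Qt m U} {Q' : Qt m U'} {v : ℝ},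
      Few S (fun J F => ptr F J) (vg v) (fun _ F => F.T) Q Q' →
      Few S (fun J F => ptr F J) (vg v) (fun _ F => F.W) Q Q' := fun {U U' Q Q' v} h =>
    Few.up hpos (fun J F => ⟨fun x => x, fun _ => rfl⟩) (fun J F => ⟨fun x => x, fun _ => rfl⟩)
      hyT h
  -- the near path exists
  have hxE : ∀ y ≤ M ^ n, Exs S (paQ m c r (g y) (fun l => sn l (g y)) (fun l => C l + g y) C) :=
    fun y hy => by
      obtain ⟨u, rd, hrd, hc⟩ := hch.ch _ (hG y hy)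
      exact exs_qjets fun l x y' j' _ => exs_jet (hrd l (by omega)) (hc.att l x (by omega))
  have hxJ : ∀ (i : ℕ) (N : ℝ),
      Exs S (qJet m ((range r).image c) (c r) i (g 0) (sn r (g 0)) N) := fun i N => by
    obtain ⟨u, rd, hrd, hc⟩ := hch.ch _ (hG 0 h0)
    exact exs_jet (hrd r (Nat.lt_succ_self r)) (hc.att r (Nat.zero_le _) (Nat.lt_succ_self r))
  -- the near path of an earlier window
  have few1 : ∀ y y' x, y ≤ y' → y' ≤ x → x ≤ M ^ n →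
      Few S (fun J F => ptr F J) (vg (g x)) (fun _ F => F.T)
        (paQ m c r (g y') (fun l => sn l (g y')) (fun l => C l + g y') C)
        (paQ m c r (g y) (fun l => sn l (g y)) (fun l => C l + g y) C) := by
    intro y y' x hy hy' hx
    have hy'M := hy'.trans hx
    have hyM := hy.trans hy'M
    exact few_paxy (H y hyM) (H y' hy'M) htm hch (hG x hx) (hgle y y' hy hy'M) (hgle y' x hy' hx)
      (hxw x hx) (hfl x hx y' hy'M) (hfl x hx y hyM) (hfl y' hy'M y hyM) (hC y hyM) (hC y' hy'M)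
      (hC x hx)
  -- fewer digits over the labels of the first window
  have few2 : ∀ y x, y ≤ x → x ≤ M ^ n → ∀ (i : ℕ) (N N' : ℝ), N' ≤ N →
      N' + i * g 0 + 3 * φ ≤ sn r (g 0) + X →
      Few S (fun J F => ptr F J) (vg (g x)) (fun _ F => F.T)
        ((paQ m c r (g y) (fun l => sn l (g y)) (fun l => C l + g y) C).prod
          (qJet m ((range r).image c) (c r) i (g 0) (sn r (g 0)) N))
        (qJet m ((range r).image c) (c r) i (g 0) (sn r (g 0)) N') := by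
    intro y x hy hx i N N' hN hN'
    have f1 := few1 0 y x (Nat.zero_le y) hy hx
    have f2 := few_same (k := c r) (j := i) (p := sn r (g 0)) (H 0 h0) htm hch (hC 0 h0)
      (hgle 0 x (Nat.zero_le x) hx) (hg1 x hx) hN hN'
    have f3 : Few S (fun J F => ptr F J) (vg (g x)) (fun _ F => F.T)
        ((paQ m c r (g y) (fun l => sn l (g y)) (fun l => C l + g y) C).prod
          (qJet m ((range r).image c) (c r) i (g 0) (sn r (g 0)) N))
        (paQ m c r (g 0) (fun l => sn l (g 0)) (fun l => C l + g 0) C) := Few.fst hpos f1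
    have f4 := FewC.cut hpos (hxE 0 h0) f3.fewC (Few.pre hpos
      (Q := ((paQ m c r (g y) (fun l => sn l (g y)) (fun l => C l + g y) C).prod
          (qJet m ((range r).image c) (c r) i (g 0) (sn r (g 0)) N)).prod
        (paQ m c r (g 0) (fun l => sn l (g 0)) (fun l => C l + g 0) C))
      (Q₂ := (paQ m c r (g 0) (fun l => sn l (g 0)) (fun l => C l + g 0) C).prod
        (qJet m ((range r).image c) (c r) i (g 0) (sn r (g 0)) N))
      (fun u => (u.2, u.1.2)) (fun _ _ _ _ _ _ hu => ⟨hu.2, hu.1.2⟩) f2).fewC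
    rw [add_zero] at f4
    exact f4.few
  have hsx : ∀ x ≤ M ^ n, sn r (g 0) + a * (g x - g 0) - e₀ ≤ sn r (g x) := fun x hx => by
    have := (abs_le.1 (hsn x hx)).1
    linarith
  have hax : ∀ x ≤ M ^ n, 0 ≤ a * (g x - g 0) ∧ a * (g x - g 0) ≤ a * (g (M ^ n) - g 0) :=
    fun x hx => ⟨mul_nonneg ha (sub_nonneg.2 (hgle 0 x (Nat.zero_le x) hx)),
      mul_le_mul_of_nonneg_left (sub_le_sub_right (hgle x _ hx le_rfl) _) ha⟩
  have hX' : a * (g (M ^ n) - g 0) + (g (M ^ n) - g 0) + ℓ₁ * q + e₀ + 4 * φ ≤ X := by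
    linarith only [hX]
  -- natural digits
  have few3 : ∀ y x, y ≤ x → x ≤ M ^ n → ∀ i : ℕ,
      Few S (fun J F => ptr F J) (vg (g x)) (fun _ F => F.T)
        (paQ m c r (g y) (fun l => sn l (g y)) (fun l => C l + g y) C)
        (qJet m ((range r).image c) (c r) i (g 0) (sn r (g 0))
          (dgn (sn r (g 0)) (g 0) a i (g x) e₀)) := by
    intro y x hy hx i
    have g1 := hsx x hx
    have g2 := hax x hx
    have g3 := hgle 0 y (Nat.zero_le y) (hy.trans hx)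
    have g4 := hgle x _ hx le_rfl
    have hm1 : sn r (g 0) - e₀ ≤ min (sn r (g x)) (sn r (g 0)) :=
      le_min (by linarith only [g1, g2.1]) (by linarith only [he₀])
    refine few_natx (H y (hy.trans hx)) htm hch (hG x hx) (hgle y x hy hx) (hxw x hx)
      (hfl x hx y (hy.trans hx)) (hC y (hy.trans hx)) (hgle 0 x (Nat.zero_le x) hx) ?_ ?_
    · unfold dgn
      linarith only [g1]
    · unfold dgn
      linarith only [g2.2, hm1, g3, g4, hX', hφ, hℓq, he₀]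
  have hfit : ∀ s < n, (M : ℝ) ^ s ≤ (M : ℝ) ^ n := fun s hs => pow_le_pow_right₀ hM1 hs.le
  have hℓs : ∀ (ℓ : ℝ) (s : ℕ), 0 ≤ ℓ → 0 ≤ ℓ / (M : ℝ) ^ s * q ∧ ℓ / (M : ℝ) ^ s * q ≤ ℓ * q :=
    fun ℓ s hℓ => by
      have h5 : (1 : ℝ) ≤ (M : ℝ) ^ s := one_le_pow₀ hM1
      exact ⟨by positivity, mul_le_mul_of_nonneg_right (div_le_self hℓ h5) hq.le⟩
  refine key (S := S) hne hpos g hgle ?_ (hg1 _ le_rfl) hrn
    (fun y => paQ m c r (g y) (fun l => sn l (g y)) (fun l => C l + g y) C)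
    (fun i o => qF c r d κ₂ (g 0) vn (sn r (g 0)) p₂ a b (ii i) (jj i) (g o) e₀)
    (fun s => qG c r d κ₂ (g 0) vn (sn r (g 0)) p₂ i₀ j₀ (ℓ₁ / (M : ℝ) ^ s * q)
      (ℓ₂ / (M : ℝ) ^ s * q)) q C₁ C₂ ε₁ hq hC₁ hC₂ hε₁ hxE
    (fun i o _ => (hxJ _ _).prod (exs_qD hd _ _)) (fun s _ => (hxJ _ _).prod (exs_qD hd _ _))
    (fun y y' x a1 a2 a3 => tw (few1 y y' x a1 a2 a3)) ?_ ?_ ?_ ?_ ?_ h3
  · obtain ⟨u, rd, hrd, hc⟩ := hch.ch _ (hG 0 h0)
    exact hc.w0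
  -- fewer digits, first kind
  · intro i y x o' o hy hx ho ho'
    refine tw (Few.pair hpos ?_ (Few.snd hpos (Few.snd hpos (few_qdq hpos ?_))))
    · refine Few.pre hpos (Q₂ := (paQ m c r (g y) (fun l => sn l (g y)) (fun l => C l + g y)
          C).prod (qJet m ((range r).image c) (c r) (ii i) (g 0) (sn r (g 0))
          (dgn (sn r (g 0)) (g 0) a (ii i) (g o) e₀)))
        (fun u => (u.1, u.2.1)) (fun _ _ _ _ _ _ hu => ⟨hu.1, hu.2.1⟩) ?_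
      refine few2 y x hy (hx.trans (ho.trans ho')) (ii i) _ _
        (dgn_le (hii i) (hgle o' o ho ho')) ?_
      have g2 := hax o' (ho.trans ho')
      have g3 := mul_nonneg (Nat.cast_nonneg (α := ℝ) (ii i)) (sub_nonneg.2
        (hgle 0 o' (Nat.zero_le o') (ho.trans ho')))
      unfold dgn
      linarith only [g2.2, g3, hX', hφ, hℓq, he₀, hD0]
    · exact dgn_le (hjj i) (hgle o' o ho ho')
  -- the same digits, second kind
  · intro s hs y x hy hx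
    refine tw (Few.pair hpos ?_ (Few.snd hpos (Few.snd hpos (few_qdq hpos le_rfl))))
    refine Few.pre hpos (Q₂ := (paQ m c r (g y) (fun l => sn l (g y)) (fun l => C l + g y)
        C).prod (qJet m ((range r).image c) (c r) i₀ (g 0) (sn r (g 0))
        (sn r (g 0) - i₀ * g 0 + ℓ₁ / (M : ℝ) ^ s * q)))
      (fun u => (u.1, u.2.1)) (fun _ _ _ _ _ _ hu => ⟨hu.1, hu.2.1⟩) ?_
    refine few2 y x hy hx i₀ _ _ le_rfl ?_
    have g2 := (hℓs ℓ₁ s hℓ₁).2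
    linarith only [g2, hX', hφ, haD, he₀, hD0]
  -- natural digits
  · intro i y x hy hx
    exact (tw (Few.pair hpos (few3 y x hy hx (ii i)) (hND y x hy hx (jj i) (hjj i)))).fewC.mono
      (by positivity)
  -- the caps, first kind
  · intro i
    have f1 := few_more hpos (dgn_le (hii i) (hgle 0 _ h0 le_rfl)) (tw (few3 0 0 le_rfl h0 (ii i)))
    have f2 := few_moreD hpos (dgn_le (hjj i) (hgle 0 _ h0 le_rfl))
      (tw (hND 0 0 le_rfl h0 (jj i) (hjj i)))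
    refine (FewC.seq hpos f1 (FewC.fst hpos f2)).mono ?_
    have g3 : Real.log 2 * (dgn (sn r (g 0)) (g 0) a (ii i) (g (M ^ n)) e₀ -
        dgn (sn r (g 0)) (g 0) a (ii i) (g 0) e₀) + Real.log 2 * (dgn p₂ (g 0) b (jj i)
        (g (M ^ n)) e₀ - dgn p₂ (g 0) b (jj i) (g 0) e₀) = Real.log 2 *
        ((a - ii i + (b - jj i)) * (g (M ^ n) - g 0)) := by
      unfold dgn
      ring
    rw [g3]
    have g4 : 0 ≤ (a - ii i + (b - jj i)) * (g (M ^ n) - g 0) :=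
      mul_nonneg (by linarith [hii i, hjj i]) hD0
    have g5 : (a - ii i + (b - jj i)) * (g (M ^ n) - g 0) ≤ (a + b) * (g (M ^ n) - g 0) :=
      mul_le_mul_of_nonneg_right (by
        have := Nat.cast_nonneg (α := ℝ) (ii i)
        have := Nat.cast_nonneg (α := ℝ) (jj i)
        linarith) hD0
    have g6 : Real.log 2 * ((a - ii i + (b - jj i)) * (g (M ^ n) - g 0)) ≤
        1 * ((a - ii i + (b - jj i)) * (g (M ^ n) - g 0)) := mul_le_mul_of_nonneg_right hl21 g4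
    linarith
  -- the caps, second kind
  · intro s hs
    have hs1 := hℓs ℓ₁ s hℓ₁
    have hs2 := hℓs ℓ₂ s hℓ₂
    have hMs : (0 : ℝ) < (M : ℝ) ^ s := by positivity
    have n1 : Few S (fun J F => ptr F J) (vg (g 0)) (fun _ F => F.T)
        (paQ m c r (g 0) (fun l => sn l (g 0)) (fun l => C l + g 0) C)
        (qJet m ((range r).image c) (c r) i₀ (g 0) (sn r (g 0)) (sn r (g 0) - i₀ * g 0)) := by
      refine few_natx (H 0 h0) htm hch (hG 0 h0) le_rfl (hxw 0 h0) (hfl 0 h0 0 h0) (hC 0 h0)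
        le_rfl (by linarith only) ?_
      rw [min_self]
      linarith only [hX', hφ, haD, he₀, hD0, hℓq]
    have f1 := few_more hpos (N' := sn r (g 0) - i₀ * g 0 + ℓ₁ / (M : ℝ) ^ s * q)
      (by linarith only [hs1.1]) (tw n1)
    have f2 := few_moreD hpos (N' := p₂ - j₀ * g 0 + ℓ₂ / (M : ℝ) ^ s * q) (by
        unfold dgn
        linarith only [hs2.1, he₀]) (tw (hND 0 0 le_rfl h0 j₀ hj₀))
    refine (FewC.seq hpos f1 (FewC.fst hpos f2)).mono ?_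
    have g3 : Real.log 2 * (sn r (g 0) - i₀ * g 0 + ℓ₁ / (M : ℝ) ^ s * q -
        (sn r (g 0) - i₀ * g 0)) + Real.log 2 * (p₂ - j₀ * g 0 + ℓ₂ / (M : ℝ) ^ s * q -
        dgn p₂ (g 0) b j₀ (g 0) e₀) = Real.log 2 *
        (ℓ₁ / (M : ℝ) ^ s * q + ℓ₂ / (M : ℝ) ^ s * q + e₀) := by
      unfold dgn
      ring
    rw [g3]
    have g4 : 0 ≤ ℓ₁ / (M : ℝ) ^ s * q + ℓ₂ / (M : ℝ) ^ s * q + e₀ := by
      linarith [hs1.1, hs2.1]
    have g6 : Real.log 2 * (ℓ₁ / (M : ℝ) ^ s * q + ℓ₂ / (M : ℝ) ^ s * q + e₀) ≤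
        1 * (ℓ₁ / (M : ℝ) ^ s * q + ℓ₂ / (M : ℝ) ^ s * q + e₀) :=
      mul_le_mul_of_nonneg_right hl21 g4
    have g7 : ℓ₁ / (M : ℝ) ^ s * q + ℓ₂ / (M : ℝ) ^ s * q + e₀ =
        ((ℓ₁ + ℓ₂) * q + e₀ * (M : ℝ) ^ s) / (M : ℝ) ^ s := by
      field_simp
    have g8 : C₂ / (M : ℝ) ^ s * q = C₂ * q / (M : ℝ) ^ s := by
      field_simp
    have g9 : e₀ * (M : ℝ) ^ s ≤ e₀ * (M : ℝ) ^ n := mul_le_mul_of_nonneg_left (hfit s hs) he₀
    have g10 : 0 ≤ e₀ * (M : ℝ) ^ n := by positivity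
    refine g6.trans ?_
    rw [one_mul, g7, g8]
    exact div_le_div_of_nonneg_right (by linarith) hMs.le

end Pool.PN18
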