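import Pool.Agent.H99.D2.Fze
import Pool.Agent.H28.TWO.Tfm
import Pool.Agent.H91.FR.QE
import Pool.Agent.H91.V0F.Lp

/-!
# Facts for a sub-box of windows

`JfN.trx`: change of the labels at a window `x ≥ v`. `few_paxy`: the near path of an earlier window.
`few_natx`: the natural jets of the last place over the labels of an early window. `few_same`: fewer
digits over the same window. `few_qdq`, `few_moreD`: the jets of the labels `d J F`.
-/

set_option autoImplicit false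

namespace Pool.PN18

open Finset Real MvPolynomial
open Pool.Agent.H49.Ent Pool.Agent.H32.Dense Pool.STK Pool.KA Pool.KSAT Pool.K2S Pool.PB Pool.GEN
open Pool.S6C Pool.RCD Pool.LA91 Pool.OWN68 Pool.AJW Pool.AJX Pool.CHT Pool.LPK12 Pool.TWO28
open Pool.GRD (LbP)
open Pool.LP30 (paQ)
open Pool.ALT (Fml DpI)

section

variable {m : ℕ} {S : PCl m} {C₀ : ℝ} {c : ℕ → Fin m} {r : ℕ} {sn : ℕ → ℝ → ℝ} {G : Set ℝ}
  {v w x y y' X φ lam kf e₁ : ℝ} {v₀ v₁ v₂ : ℕ → ℝ} {K : ℕ} {U₀ : Type} {Q : Qt m U₀}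

/-- **From the labels of one window to those of another one**, at the record of a window `x ≥ v`. -/
theorem _root_.Pool.AJW.JfN.trx (H : JfN r sn G v w X φ lam kf v₀ K) (htm : TmC S C₀)
    (hch : ChG S c (r + 1) sn G) (hxG : x ∈ G) (hvx : v ≤ x) (hxw : x ≤ w)
    (hfx : ∀ i < r, |sn i x - sn i v - (x - v)| ≤ φ)
    (hA : JetA S (fun J F => ptr F J) (vg x) (fun _ F => F.T) Q c 0 r v (fun i => sn i v)
      (nX r sn v X) e₁) {k : Fin m} {j : ℕ} {w₁ w₂ p₁ p₂ N₁ N : ℝ} (hw₁ : w₁ ≤ x) (hw₂ : w₂ ≤ x)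
    (hN : N ≤ N₁) (h3 : N + j * x + 3 * φ + (x - v) ≤ min p₁ p₂ + X) {e η h : ℝ} (he0 : 0 < e)
    (he1 : e ≤ e₁) (he : e ≤ φ / 8) (hh : 0 < h)
    (hexJ : Exs S (qJet m ((range r).image c) k j w₁ p₁ N₁))
    (hJ : F1 S (fun J F => ptr F J) (vg x) (fun _ F => F.T) Q
      (qJet m ((range r).image c) k j w₁ p₁ N₁) e η) :
    F1 S (fun J F => ptr F J) (vg x) (fun _ F => F.T) Q
      (qJet m ((range r).image c) k j w₂ p₂ N) e (η + h) := by
  obtain ⟨uw, rw, hrw, hcw⟩ := hch.ch x hxG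
  have hvw := H.vw
  have hφ := H.φ0
  have hX0 := H.X0
  have hlX := H.lamX
  have hφX := H.φX
  have hXK := H.XK
  have hrφ : 0 ≤ (r : ℝ) * φ := mul_nonneg (Nat.cast_nonneg r) hφ.le
  have hKD : 0 ≤ (K : ℝ) * (w - v) := mul_nonneg (Nat.cast_nonneg K) (by linarith)
  have hak : ∀ l < r, 3 * aX r X l ≤ kf := fun l hl => (aX_le hX0.le hl).trans H.kfX
  have hfl : ∀ i < r, sn i v + (x - v) - φ ≤ sn i x ∧ sn i x ≤ sn i v + (x - v) + φ :=
    fun i hi => by
      have := abs_le.1 (hfx i hi)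
      exact ⟨by linarith [this.1], by linarith [this.2]⟩
  have hmn : ∀ i < r, sn i v - φ ≤ min (sn i v) (sn i x) := fun i hi =>
    le_min (by linarith) (by linarith [(hfl i hi).1])
  have hV := F1.qjets' (v := v) (p := fun i => sn i v) (n := nX r sn v X) (r₀ := 0) (r := r)
    (c := c) htm (j := j) (half_pos hh) (fun η' hη' i x y j' _ =>
      (hA η' hη' i x y j').mono he1 le_rfl)
  have key := jet_tr2 (w := x) (lv := fun l => aX r X l - (x - v) - 2 * φ) (n := nX r sn v X)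
    (p := fun i => sn i v) htm (hcw.take (Nat.zero_le _) (Nat.le_succ r)) (k := k) (j := j)
    (v := v) (lam := lam) (w₁ := w₁) (w₂ := w₂) (p₁ := p₁) (p₂ := p₂) (N₁ := N₁) (N := N)
    (σ := φ) hvx hw₁ hw₂ (by linarith) H.l1.le hφ
    (fun i _ _ => by linarith [aX_ge hX0.le (r := r) i]) ?_ ?_ ?_ hN ?_ ?_ ptr_id (kn_T c _ _)
    (e := e) (η := h / 2) (η' := η) (h := h / 2) he (half_pos hh) he0 (H.exv hch j) hexJ hV hJ
  · refine key.mono le_rfl (by linarith)
  · intro l _ hl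
    have h1 := (hfl l hl).2
    show sn l x + (aX r X l - (x - v) - 2 * φ) + φ ≤ nX r sn v X l
    unfold nX
    linarith
  · intro i _ hi
    have h1 := (hfl i hi).2
    have h2 := hmn i hi
    have h3 := hak i hi
    have h4 := aX_ge hX0.le (r := r) i
    have h5 := H.lamk
    show sn i x + (aX r X i - (x - v) - 2 * φ) + φ ≤ min (sn i v) (sn i x) + (v + lam - x)
    linarith
  · intro i _ hi l _ hl
    have h1 := (hfl i hi).2
    have h2 := hmn i hi
    have h3 := aX_nest hX0.le hl hi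
    have h4 := aX_ge hX0.le (r := r) i
    show sn i x + (aX r X i - (x - v) - 2 * φ) + φ ≤ min (sn i v) (sn i x) +
      (aX r X l - (x - v) - 2 * φ)
    linarith
  · linarith
  · intro l _ _
    linarith [aX_ge hX0.le (r := r) l]

/-- The near jets of the chain over the labels of `y`, the near path at `y` given, at the record of
`x ≥ y`. -/
theorem jetA_pax (H : JfN r sn G y w X φ lam kf v₀ K) (htm : TmC S C₀)
    (hch : ChG S c (r + 1) sn G) {nH nV : ℕ → ℝ} (hp : PaN r sn y X φ nH nV) (hyx : y ≤ x)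
    (hx1 : x ≤ 1) :
    JetA S (fun J F => ptr F J) (vg x) (fun _ F => F.T)
      (paQ m c r y (fun l => sn l y) nH nV) c 0 r y (fun i => sn i y) (nX r sn y X) (φ / 8) := by
  have hφ := H.φ0
  have h1 : JetA S (fun J F => ptr F J) (vg y) (fun _ F => F.T)
      (paQ m c r y (fun l => sn l y) nH nV) c 0 r y (fun i => sn i y) (nX r sn y X) (φ / 8) := by
    refine H.nearv htm hch (fun l _ => by linarith) fun l hl j hj => ?_
    rcases Nat.eq_zero_or_pos j with rfl | hj0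
    · have h1 := hp.lh l hl
      rw [if_pos rfl, Nat.cast_zero, zero_mul]
      linarith
    · obtain rfl : j = 1 := by omega
      have h1 := hp.lv l hl
      rw [if_neg one_ne_zero, Nat.cast_one, one_mul]
      linarith
  intro η hη l a b j
  exact F1.up hyx hx1 (h1 η hη l a b j)

/-- **The near path of an earlier window**, at the record of `x`: `y ≤ y' ≤ x`. -/
theorem few_paxy (Hy : JfN r sn G y w X φ lam kf v₀ K) (Hy' : JfN r sn G y' w X φ lam kf v₁ K)
    (htm : TmC S C₀) (hch : ChG S c (r + 1) sn G) (hxG : x ∈ G) (hyy : y ≤ y') (hyx : y' ≤ x)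
    (hxw : x ≤ w) (f1 : ∀ i < r, |sn i x - sn i y' - (x - y')| ≤ φ)
    (f2 : ∀ i < r, |sn i x - sn i y - (x - y)| ≤ φ)
    (f3 : ∀ i < r, |sn i y' - sn i y - (y' - y)| ≤ φ) {C : ℕ → ℝ}
    (p1 : PaN r sn y X φ (fun l => C l + y) C) (p2 : PaN r sn y' X φ (fun l => C l + y') C)
    (p3 : PaN r sn x X φ (fun l => C l + x) C) :
    Few S (fun J F => ptr F J) (vg x) (fun _ F => F.T)
      (paQ m c r y' (fun l => sn l y') (fun l => C l + y') C)
      (paQ m c r y (fun l => sn l y) (fun l => C l + y) C) := by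
  obtain ⟨ux, rx, hrx, hcx⟩ := hch.ch x hxG
  have hvw := Hy.vw
  have hvw' := Hy'.vw
  have hφ := Hy.φ0
  have hX0 := Hy.X0
  have hlX := Hy.lamX
  have hφX := Hy.φX
  have hXK := Hy.XK
  have hlk := Hy.lamk
  have hkf := Hy.kfX
  have hrφ : 0 ≤ (r : ℝ) * φ := mul_nonneg (Nat.cast_nonneg r) hφ.le
  have hKD : 0 ≤ (K : ℝ) * (w - y) := mul_nonneg (Nat.cast_nonneg K) (by linarith)
  have hD : 12 * (w - y) ≤ X := by linarith
  have hX1 : 32 * φ ≤ X := by linarith
  have hak : ∀ l < r, 3 * aX r X l ≤ kf := fun l hl => (aX_le hX0.le hl).trans hkf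
  have ha : ∀ l, X ≤ aX r X l := fun l => aX_ge hX0.le l
  have g1 : ∀ i < r, sn i y' + (x - y') - φ ≤ sn i x ∧ sn i x ≤ sn i y' + (x - y') + φ :=
    fun i hi => by
      have := abs_le.1 (f1 i hi)
      exact ⟨by linarith [this.1], by linarith [this.2]⟩
  have g2 : ∀ i < r, sn i y + (x - y) - φ ≤ sn i x ∧ sn i x ≤ sn i y + (x - y) + φ :=
    fun i hi => by
      have := abs_le.1 (f2 i hi)
      exact ⟨by linarith [this.1], by linarith [this.2]⟩
  have g3 : ∀ i < r, sn i y + (y' - y) - φ ≤ sn i y' ∧ sn i y' ≤ sn i y + (y' - y) + φ :=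
    fun i hi => by
      have := abs_le.1 (f3 i hi)
      exact ⟨by linarith [this.1], by linarith [this.2]⟩
  have hm1 : ∀ i < r, sn i x - (x - y') - φ ≤ min (sn i y') (sn i x) := fun i hi =>
    le_min (by linarith [(g1 i hi).2]) (by linarith)
  have hm2 : ∀ i < r, sn i y - φ ≤ min (sn i y') (sn i y) := fun i hi =>
    le_min (by linarith [(g3 i hi).1]) (by linarith)
  have hmin : kf ≤ min lam (y + lam - x) := le_min (by linarith) (by linarith)
  refine few_iff.2 fun h hh => ⟨φ / 8, by positivity, ?_⟩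
  refine qjets_F1 htm (hcx.take (Nat.zero_le _) (Nat.le_succ r))
    (wv := fun _ _ => y') (pv := fun l _ => sn l y')
    (Nv := fun l j => if j = 0 then C l + y' else C l) (wt := fun _ _ => y)
    (pt := fun l _ => sn l y) (Nt := fun l j => if j = 0 then C l + y else C l)
    (p₀ := y + lam) (lam := lam) (σ := φ) (lw := fun l => aX r X l - (x - y') - 2 * φ)
    (fun _ _ _ _ _ => hyx) (fun _ _ _ _ _ => hyy.trans hyx) (by linarith) Hy.l1.le
    (by linarith) hφ (fun l _ hl => by linarith [ha l]) ?_ ?_ ?_ ?_ ?_ ?_ ptr_id (kn_T c _ _) hh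
  · intro l _ hl j hj
    show sn l x + (aX r X l - (x - y') - 2 * φ) + φ ≤ (if j = 0 then C l + y' else C l) +
      (j : ℕ) * x
    rcases Nat.eq_zero_or_pos j with rfl | hj0
    · have h1 := p2.lh l hl
      unfold nX at h1
      rw [if_pos rfl, Nat.cast_zero, zero_mul]
      linarith [(g1 l hl).2]
    · obtain rfl : j = 1 := by omega
      have h1 := p3.lv l hl
      unfold nX at h1
      rw [if_neg one_ne_zero, Nat.cast_one, one_mul]
      linarith
  · intro l _ hl j hj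
    show sn l x + (aX r X l - (x - y') - 2 * φ) + φ ≤ min (sn l y') (sn l x) +
      min lam (y + lam - x)
    linarith [hm1 l hl, hak l hl, ha l]
  · intro l _ hl j hj l' _ hl'
    show sn l x + (aX r X l - (x - y') - 2 * φ) + φ ≤ min (sn l y') (sn l x) +
      (aX r X l' - (x - y') - 2 * φ)
    linarith [hm1 l hl, aX_nest hX0.le hl' hl, ha l]
  · intro l _ hl j hj
    show (if j = 0 then C l + y else C l) ≤ (if j = 0 then C l + y' else C l)
    split_ifs <;> linarith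
  · intro l _ hl j hj
    show (if j = 0 then C l + y else C l) + (j : ℕ) * x + φ ≤ min (sn l y') (sn l y) +
      min lam (y + lam - x)
    rcases Nat.eq_zero_or_pos j with rfl | hj0
    · have h1 := p1.uh l hl
      unfold nX at h1
      rw [if_pos rfl, Nat.cast_zero, zero_mul]
      linarith [hm2 l hl, hak l hl, ha l]
    · obtain rfl : j = 1 := by omega
      have h1 := p3.uv l hl
      unfold nX at h1
      rw [if_neg one_ne_zero, Nat.cast_one, one_mul]
      linarith [hm2 l hl, hak l hl, ha l, (g2 l hl).2]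
  · intro l _ hl j hj l' _ hl'
    show (if j = 0 then C l + y else C l) + (j : ℕ) * x + φ ≤ min (sn l y') (sn l y) +
      (aX r X l' - (x - y') - 2 * φ)
    have h2 := aX_nest hX0.le hl' hl
    rcases Nat.eq_zero_or_pos j with rfl | hj0
    · have h1 := p1.uh l hl
      unfold nX at h1
      rw [if_pos rfl, Nat.cast_zero, zero_mul]
      linarith [hm2 l hl, ha l]
    · obtain rfl : j = 1 := by omega
      have h1 := p3.uv l hl
      unfold nX at h1
      rw [if_neg one_ne_zero, Nat.cast_one, one_mul]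
      linarith [hm2 l hl, ha l, (g2 l hl).2]

/-- **The natural jets of the last place over the labels of an early window** `b₀`, the near path at
`y ≤ x` given, at the record of `x`. -/
theorem few_natx (H : JfN r sn G y w X φ lam kf v₀ K) (htm : TmC S C₀)
    (hch : ChG S c (r + 1) sn G) (hxG : x ∈ G) (hyx : y ≤ x) (hxw : x ≤ w)
    (hfx : ∀ i < r, |sn i x - sn i y - (x - y)| ≤ φ) {nH nV : ℕ → ℝ}
    (hp : PaN r sn y X φ nH nV) {b₀ N : ℝ} {j : ℕ} (hb₀ : b₀ ≤ x) (hN : N + j * x ≤ sn r x)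
    (h3 : N + j * x + 3 * φ + (x - y) ≤ min (sn r x) (sn r b₀) + X) :
    Few S (fun J F => ptr F J) (vg x) (fun _ F => F.T) (paQ m c r y (fun l => sn l y) nH nV)
      (qJet m ((range r).image c) (c r) j b₀ (sn r b₀) N) := by
  obtain ⟨ux, rx, hrx, hcx⟩ := hch.ch x hxG
  have hφ := H.φ0
  have hA := jetA_pax H htm hch hp hyx hcx.u0.le
  refine few_iff.2 fun h hh => ?_
  obtain ⟨e, he⟩ : ∃ e : ℝ, e = min (φ / 8) (h / 16) := ⟨_, rfl⟩
  have he0 : 0 < e := by
    rw [he]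
    positivity
  have l1 : e ≤ φ / 8 := by
    rw [he]
    exact min_le_left _ _
  have l2 : e ≤ h / 16 := by
    rw [he]
    exact min_le_right _ _
  have h1 := F1.of0 (Q := paQ m c r y (fun l => sn l y) nH nV) htm
    ((few0_jq htm hcx.w0 hcx.u0 hN (fun J F => ptr F J) (vg x)
      (fun _ F => F.T) (I := (range r).image c) (k := c r) (j := j) (half_pos hh)).mono
      (show e ≤ h / 2 / 8 by linarith) le_rfl)
  have h2 := H.trx htm hch hxG hyx hxw hfx hA le_rfl hb₀ (le_refl N) h3 he0 l1 l1 (half_pos hh)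
    (exs_jet (hrx r (Nat.lt_succ_self r)) (hcx.att r (Nat.zero_le _) (Nat.lt_succ_self r))) h1
  exact ⟨e, he0, h2.mono le_rfl (by linarith)⟩

/-- **Fewer digits over the labels of the same window**, at the record of `x ≥ v`. -/
theorem few_same (H : JfN r sn G v w X φ lam kf v₀ K) (htm : TmC S C₀)
    (hch : ChG S c (r + 1) sn G) {nH nV : ℕ → ℝ} (hp : PaN r sn v X φ nH nV) (hvx : v ≤ x)
    (hx1 : x ≤ 1) {k : Fin m} {j : ℕ} {p N N' : ℝ} (hN : N' ≤ N)
    (h3 : N' + j * v + 3 * φ ≤ p + X) :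
    Few S (fun J F => ptr F J) (vg x) (fun _ F => F.T)
      ((paQ m c r v (fun l => sn l v) nH nV).prod (qJet m ((range r).image c) k j v p N))
      (qJet m ((range r).image c) k j v p N') := by
  have hφ := H.φ0
  obtain ⟨uv, rv, hrv, hcv⟩ := hch.ch v H.vG
  have hA := jetA_pax H htm hch hp le_rfl hcv.u0.le
  refine few_iff.2 fun h hh => ⟨φ / 8, by positivity, ?_⟩
  exact F1.up hvx hx1 (H.usame htm hch hA hN (by rw [min_self]; exact h3) (by positivity) le_rfl
    le_rfl hh)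

end

section

variable {m : ℕ} {S : PCl m} {α β γ : ∀ J : ℕ, Fam m J → Type} {U : Type}
  {f : ∀ (J : ℕ) (F : Fam m J), F.Ω → α J F} {g : ∀ (J : ℕ) (F : Fam m J), F.Ω → β J F}
  {y : ∀ (J : ℕ) (F : Fam m J), F.Ω → γ J F} {d : ∀ (J : ℕ) (F : Fam m J), LbD F} {κ : Fin m}
  {j : ℕ} {v N N' : ℝ}

/-- The jet of the label `d J F`, given fewer or more digits of it: `few_qdq`. -/
theorem few_qdq
    (hpos : ∀ (τ : ℝ) (J : ℕ) (F : Fam m J) (A : F.Ω → Prop), S.St τ J F A → 0 < Pe F.p A)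
    (hN : N' ≤ N) : Few S f g y (qD m d κ j v N) (qD m d κ j v N') := by
  intro h hh
  obtain ⟨J₀, hJ₀⟩ := exists_nat_ge (Real.log 9 / h)
  refine ⟨1, one_pos, fun K => Bas.mono J₀ (pos_bas hpos) ?_⟩
  rintro J hJ F A hA u u' ⟨-, hu⟩ ⟨-, hu'⟩
  have hcl := isLaw_cond F.isLaw hA
  have hJr : (J₀ : ℝ) ≤ J := by exact_mod_cast hJ
  have hLJ : Real.log 9 ≤ h * J := by
    have := hJ₀.trans hJr
    rw [div_le_iff₀ hh] at this
    linarith
  refine ⟨Unit, fun _ => (), ⟨⟨fun _ => (), fun _ _ => rfl⟩, fun _ => (), fun _ _ => rfl⟩, ?_⟩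
  obtain ⟨x, hx⟩ : ∃ x : F.Ω → ℝ, x = fun ω => ojet F κ j
    ((d J F).G ((d J F).z' (slam F ⌊v * J⌋₊ ω))) ω := ⟨_, rfl⟩
  have h1 := ch_dig hcl x (n := N') (n' := N) (γ := 0) (J := J) (by linarith) le_rfl
  refine le_trans (CH_mono_cond hcl.nonneg fun ω ω' hω hω' hh => ?_)
    ((CH_mono_left hcl.nonneg fun ω ω' hω hω' hh => ?_).trans (h1.trans (by linarith)))
  · have h2 := (Prod.ext_iff.mp hh).1
    simp only at h2
    rw [hu ω (of_cond_pos hω), hu ω' (of_cond_pos hω')] at h2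
    rw [hx]
    exact h2
  · have h2 := (Prod.ext_iff.mp hh).1
    simp only at h2
    rw [hu' ω (of_cond_pos hω), hu' ω' (of_cond_pos hω')]
    rw [hx] at h2
    exact h2

/-- **More digits** of the jet of the label `d J F`. -/
theorem few_moreD
    (hpos : ∀ (τ : ℝ) (J : ℕ) (F : Fam m J) (A : F.Ω → Prop), S.St τ J F A → 0 < Pe F.p A)
    {Q : Qt m U} (hN : N ≤ N') (h : Few S f g y Q (qD m d κ j v N)) :
    FewC S f g y Q (qD m d κ j v N') (Real.log 2 * (N' - N)) := by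
  intro a ha
  obtain ⟨e, he, H⟩ := h (a / 2) (half_pos ha)
  obtain ⟨J₁, hJ₁⟩ := exists_nat_ge (Real.log 9 / (a / 2))
  obtain ⟨J₂, hJ₂⟩ := exists_nat_ge (Real.log 5)
  refine ⟨e, he, fun K => Bas.mono (max J₁ J₂) ((H (K + 1)).and (pos_bas hpos)) ?_⟩
  rintro J hJ F A ⟨H, hA⟩ u u' hu ⟨hc, hu'⟩
  have hcl := isLaw_cond F.isLaw hA
  have hJ0 : (0 : ℝ) ≤ J := Nat.cast_nonneg J
  have j1 : (J₁ : ℝ) ≤ J := by exact_mod_cast (le_max_left _ _).trans hJ
  have j2 : (J₂ : ℝ) ≤ J := by exact_mod_cast (le_max_right _ _).trans hJ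
  obtain ⟨X, hX⟩ : ∃ X : F.Ω → ℝ, X = fun ω => ojet F κ j
    ((d J F).G ((d J F).z' (slam F ⌊v * J⌋₊ ω))) ω := ⟨_, rfl⟩
  have hu1 : ∀ ω, A ω → u' ω = ⌊(2 : ℝ) ^ (N' * J) * X ω⌋ := by
    rw [hX]
    exact hu'
  have c1 := cnt_dig (p := F.p) X (mul_le_mul_of_nonneg_right hN hJ0) hu1
  have c2 : (cnt F.p (fun ω => ⌊(2 : ℝ) ^ (N * J) * X ω⌋) A : ℝ) ≤
      Real.exp ((K + 1 : ℕ) * J) := by
    refine c1.trans ((mul_le_mul_of_nonneg_right hc (by norm_num)).trans ?_)
    calc Real.exp (K * J) * 5 = Real.exp (K * J) * Real.exp (Real.log 5) := by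
          rw [Real.exp_log (by norm_num)]
      _ = Real.exp (K * J + Real.log 5) := (Real.exp_add _ _).symm
      _ ≤ Real.exp ((K + 1 : ℕ) * J) := by
          refine Real.exp_le_exp.2 ?_
          push_cast
          linarith [hJ₂.trans j2]
  obtain ⟨V₁, z₁, hz₁, h1⟩ := H u (fun ω => ⌊(2 : ℝ) ^ (N * J) * X ω⌋)
    (Q.mono (Nat.le_succ K) le_rfl hu) ⟨c2, fun ω _ => by rw [hX]; rfl⟩
  refine ⟨V₁, z₁, hz₁, ?_⟩
  have h2 := CH_le_add hcl.nonneg u' (fun ω => ⌊(2 : ℝ) ^ (N * J) * X ω⌋)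
    (fun ω => (u ω, (z₁ ω, y J F ω)))
  have h3 := ch_dig hcl X (n := N') (n' := N) (γ := N' - N) (J := J) (by linarith) (by linarith)
  have h4 : CH (Pool.Agent.H49.Ent.cond F.p A True) u'
      (fun ω => (⌊(2 : ℝ) ^ (N * J) * X ω⌋, (u ω, (z₁ ω, y J F ω)))) ≤
      CH (Pool.Agent.H49.Ent.cond F.p A True) (fun ω => ⌊(2 : ℝ) ^ (N' * J) * X ω⌋)
        (fun ω => ⌊(2 : ℝ) ^ (N * J) * X ω⌋) := by
    refine (CH_mono_cond hcl.nonneg fun ω ω' _ _ hh => (Prod.ext_iff.mp hh).1).trans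
      (CH_mono_left hcl.nonneg fun ω ω' hω hω' hh => ?_)
    have h5 := (Prod.ext_iff.mp hh).1
    simp only at h5
    rw [hu1 ω (of_cond_pos hω), hu1 ω' (of_cond_pos hω')]
    exact h5
  have h6 : Real.log 9 ≤ a / 2 * J := by
    have := hJ₁.trans j1
    rw [div_le_iff₀ (by positivity)] at this
    linarith
  have e1 : (Real.log 2 * (N' - N) + a) * J = (N' - N) * J * Real.log 2 + a / 2 * J + a / 2 * J := by
    ring
  rw [e1]
  linarith

end

end Pool.PN18
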