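import Pool.Agent.H82.FZM.Stg
import Pool.Agent.H73.PN4.Bsd
import Pool.Agent.H33.PN.Stm
import Pool.Agent.H99.D2.Fzi
import Pool.Agent.H18.PN.Stgf

/-!
# The chain of the stages at a record

`nfL`: the digits of the near path, linear in the window. `chain_recd`: the first jet of the place
from the stages at one record and one class, the slope of the place smaller, over the labels `d J F`.
-/

set_option autoImplicit false

namespace Pool.PN18

open Finset Real MvPolynomial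
open Pool.Agent.H49.Ent Pool.Agent.H32.Dense Pool.STK Pool.KA Pool.KSAT Pool.K2S Pool.PB Pool.GEN
open Pool.S6C Pool.RCD Pool.LA91 Pool.OWN68 Pool.AJW Pool.AJX Pool.CHT Pool.PKG Pool.ALT
open Pool.CR99 (PairE NzE)

/-- The digits of the near path, linear in the window `v`. -/
def nfL (C : ℕ → ℝ) (v : ℝ) (l j : ℕ) : ℝ := C l + (1 - (j : ℕ)) * v

/-- **TASK P7c. The chain of the stages at a record.** -/
theorem chain_recd {r D M : ℕ} (hr : 1 ≤ r) {a b h : ℝ} (ha1 : 1 < a) (hab : a < b) (hh : 0 < h)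
    (hh1 : h ≤ 1) {x : ℕ → ℝ} {τ : ℕ → ℕ} (HS : StgM a b (max D D * max 1 D) M x τ) {dd : ℝ}
    (hdd : 0 < dd) :
    ∃ (δ : ℕ → ℝ) (N₀ : ℕ → ℕ) (γ₁ : ℝ), (∀ k < M, 0 < δ k) ∧ (∀ k < M, 0 < N₀ k) ∧ 0 < γ₁ ∧
    ∀ {S : PCl (r + 2)} {al : ℝ} {g₀ : ℝ → ℝ} {P : List (Fin (r + 2)) × Fin (r + 2) → ℝ → ℝ → ℝ}
      {θ : ℝ} {P₂ : ℕ → List (Fin (r + 2)) × Fin (r + 2) → ℝ → ℝ → ℝ} {θ₂ Eb e₂ : ℕ → ℝ}
      {c : ℕ → Fin (r + 2)} {Pt : ℝ → ℝ → ℝ} {rt : ℝ → ℝ} {K₀ g : ℝ} {L T : ℕ → ℝ → ℝ → ℝ}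
      {Sl : ℕ → ℝ} {κ : ℕ → Kg} {G : Set ℝ} {S₀ N : ℕ} {A V : ℕ → ℝ} {S₂ N' : ℕ} {V' : ℕ → ℝ}
      {K' ε q t : ℝ} {S₁ : PCl (r + 2)} (_ : S₁.Ne)
      (_ : ∀ (τ : ℝ) (J : ℕ) (F : Fam (r + 2) J) (A : F.Ω → Prop), S₁.St τ J F A → S.St τ J F A)
      (_ : RecG S₁ al g₀ P θ P₂ θ₂ Eb e₂ c Pt rt h K₀ g L T Sl κ G S₀ N A V S₂ N' V' K' ε q t)
      (_ : ∀ l < r, κ l = .one) (_ : Sl r = a) (_ : Sl (r + 1) = b) (_ : 0 < ε) (_ : 0 < K₀)
      (_ : ∀ w ∈ G, ∃ rd : ℕ → ℝ, (∀ l < r + 1, 0 ≤ rd l) ∧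
        Chn S c 0 (r + 1) w w (L r w w) (fun l => L l w w) rd) {e₀ ρ₀ π₀ μ : ℝ} (_ : 0 < μ)
      (_ : ρ₀ + μ ≤ 1) (_ : ∀ w ∈ G, |w - g| ≤ μ → AltC S c r L e₀ ρ₀ π₀ μ w)
      (_ : ∀ x : ℝ, |x| ≤ K' → |t + x * q - g| ≤ μ)
      (_ : LabR r D S₁ c L e₀ μ q t N' V') {el dl : ℝ} {k₀ : ℕ} (_ : 0 ≤ el) (_ : 0 ≤ dl)
      (_ : dl ≤ b * Real.log 2)
      (_ : ∀ S' : PCl (r + 2), S'.Ne → SubC S' S → ∀ w₀ : ℝ, 0 < w₀ → w₀ < g →
        AltE S' ((range (r + 1)).image c) (c (r + 1)) (max D D * max 1 D) e₀ ρ₀ π₀ w₀ →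
        ∃ φ : ℝ, b * Real.log 2 - dl ≤ φ ∧ ∀ k ≥ k₀, AltAt S ((range (r + 1)).image c)
          ((range r).image c) (c (r + 1)) (max D D * max 1 D) e₀ ρ₀ π₀ (fun w => L (r + 1) w w) g
          φ el k)
      (_ : (K₀ + τ 0) * q ≤ (1 / 2) ^ k₀)
      -- the label `d J F`, with natural labels of the windows `wv k`
      {Ψb : Fml (r + 2)} {vn En Rn Pn Pn' pe : ℝ}
      (_ : ∀ (J : ℕ) (F : Fam (r + 2) J) (A B : F.Ω → Prop) (V : Type)
        (z : PtT F → V) (z' : LnT F → V) (G : V → MvPolynomial (Option (Fin (r + 2))) ℝ),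
        Sub B A → Ψb J F A V z z' G → Ψb J F B V z z' G)
      (_ : ∀ (J : ℕ) (F : Fam (r + 2) J) (A : F.Ω → Prop) (V : Type) (z : PtT F → V)
        (z' : LnT F → V) (G : V → MvPolynomial (Option (Fin (r + 2))) ℝ), Ψb J F A V z z' G →
        LbOK F ((range (r + 1)).image c) (c (r + 1)) D ⌊En * J⌋₊ J ⌊vn * J⌋₊ ⌊Rn * J⌋₊
          ⌊Pn' * J⌋₊ A z z' G)
      {n : ℕ} {wv pa₁ pa₂ : ℕ → ℝ} {d : ∀ (J : ℕ) (F : Fam (r + 2) J), LbD F}
      (_ : Bas S₁ (fun J F A => ∃ (V : Type) (z : PtT F → V) (z' : LnT F → V)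
        (G : V → MvPolynomial (Option (Fin (r + 2))) ℝ),
        Sgl (NzE Ψb c r (c (r + 1)) D vn n wv pa₁ pa₂ (fun _ => e₀ - μ / 2)
          (fun k => L r (wv k) (wv k) + μ / 4) (fun k => L (r + 1) (wv k) (wv k) - pe)) d
          J F A V z z' G))
      (_ : ∀ k < n, wv k ∈ G) {ms : ℝ} (_ : 0 < ms)
      (_ : ∀ y, -(τ 0 : ℝ) ≤ y → y ≤ 0 → ∃ k < n, |wv k - (t + y * q)| ≤ ms * q)
      (_ : ∀ k ≤ M, ∃ i < n, wv i = t + -(τ k : ℝ) * q) (_ : ∃ k < n, wv k = t) (_ : 0 ≤ vn)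
      (_ : vn < 1) (_ : vn + (τ 0 + pzD (τ 0) b) * q ≤ t) {X φ kf ℓ e' : ℝ}
      (_ : pe ≤ e' * q / 2) (_ : Pn - e' * q ≤ Pn') (_ : L (r + 1) vn vn - q ≤ Pn)
      -- the windows
      (_ : ∀ k ≤ M, ∃ j < N', V' j = -(τ k : ℝ)) (_ : ∃ j < N', V' j = 0)
      (_ : ∃ j < N', V' j = -(K₀ + 1))
      (_ : ∀ k ≤ M, ∀ i ≤ r, ∃ j < N', V' j = jfV r (-(τ k : ℝ)) X i)
      -- the numbers
      (_ : 2 * ((a + b + (max D D * max 1 D : ℕ) + 8) * τ 0) + 8 ≤ X) (_ : a + τ 0 + 3 ≤ X)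
      (_ : 32 * (r + 1) * φ ≤ X)
      (_ : 3 ^ r * X ≤ kf) (_ : b * τ 0 + 2 * (r + 1) * φ + 1 ≤ kf) (_ : kf + τ 0 ≤ ℓ)
      (_ : 3 ^ r * X + τ 0 + 1 ≤ ℓ) (_ : b * τ 0 + τ 0 + 1 ≤ ℓ) (_ : ℓ + 1 ≤ K')
      (_ : τ 0 + 3 ^ r * X + 3 ≤ K') (_ : 2 * (a + b) * τ 0 + 2 ≤ K') (_ : τ 0 + K₀ + 2 ≤ K')
      (_ : 0 < φ) (_ : φ ≤ 1 / 8) (_ : 2 * ε ≤ φ) (_ : 0 < e') (_ : e' ≤ φ / 16)
      (_ : e' ≤ 1 / 64) (_ : 128 * ε ≤ e') (_ : b * ms ≤ e' / 32)
      (_ : (2 * (b * τ 0) + 4) * q ≤ μ / 4) {pf : ℕ → ℝ} {pr : ℝ}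
      (_ : ∀ l < r, L l t t - φ * q ≤ pf l ∧ pf l ≤ L l t t) (_ : L r t t - φ * q ≤ pr)
      (_ : 2 * (e' * q) ≤ Pn) (_ : L (r + 1) t t + (b * τ 0 + τ 0 + 3) * q ≤ Pn + X * q)
      (_ : L (r + 1) t t - b * (t - vn) - q ≤ Pn)
      (_ : e' ≤ γ₁) (_ : el * (2 * (K₀ + τ 0)) ≤ γ₁) (_ : dl ≤ γ₁)
      -- the digits of the near path
      {C : ℕ → ℝ} (_ : ∀ k ≤ M, ∀ l < r, nX r (fun l x => L l x x) (t + -(τ k : ℝ) * q) (X * q) l ≤
        C l + (t + -(τ k : ℝ) * q))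
      (_ : ∀ k ≤ M, ∀ l < r, C l + (t + -(τ k : ℝ) * q) ≤
        nX r (fun l x => L l x x) (t + -(τ k : ℝ) * q) (X * q) l + q / 2)
      -- the mutual information
      (_ : ∀ k < M, ∀ (Ψ : Fm2 (r + 2)) (E₂ r₂ : ℝ) (E rd : ℕ → ℝ), (∀ i ≤ r, 0 ≤ E i ∧
          L i (t + -(τ (k + 1) : ℝ) * q) (t + -(τ (k + 1) : ℝ) * q) + E i + 3 * K' * q ≤ 1) →
        PairE S₁ Ψ c r (max D D * max 1 D) ((range (r + 1)).image c) (c (r + 1)) a b
          (stR a x (fun i => (τ i : ℝ)) k) (h * a) (δ k) (ℓ * q) (N₀ k)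
          (t + -(τ (k + 1) : ℝ) * q) t q
          (fun i => L i (t + -(τ (k + 1) : ℝ) * q) (t + -(τ (k + 1) : ℝ) * q))
          (nX r (fun l x => L l x x) (t + -(τ (k + 1) : ℝ) * q) (X * q))
          (fun x => L (r + 1) x x) pf (nfL C (t + -(τ (k + 1) : ℝ) * q)) (e' * q) E₂ r₂
          (L (r + 1) (t + -(τ (k + 1) : ℝ) * q) (t + -(τ (k + 1) : ℝ) * q)) E rd vn Pn En Rn
          (D * max 1 D) →
        DcpD Ψ d ((range r).image c) ((range (r + 1)).image c) (c (r + 1)) (D * max 1 D) vn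
          (t + -(τ (k + 1) : ℝ) * q) En Rn Pn (e' * q) →
        IpC S₁ Ψ c r (max D D * max 1 D) L q t a b (x k) (x (k + 1)) (x k * (b / a))
          (x (k + 1) * (b / a)) (τ (k + 1)) (stR a x (fun i => (τ i : ℝ)) k) φ pf
          (nfL C (t + -(τ (k + 1) : ℝ) * q)) (e' * q) (δ k)),
      F1 S₁ (fun J F => ptr F J) (vg t) (fun _ F => F.T)
        (qJets (r + 2) c 0 r 1 (fun _ _ => t) (fun l _ => pf l) (nfL C (t + -(τ M : ℝ) * q)))
        (qJet (r + 2) ((range r).image c) (c r) 1 t pr (L r t t + (a - 1) * q - t)) (e' * q)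
        (dd * q) := by
  classical
  have ha : 0 < a := by linarith only [ha1]
  have hb : 0 < b := ha.trans hab
  have hr0 : (0 : ℝ) ≤ r := Nat.cast_nonneg r
  have hba : 0 < b / a := div_pos hb ha
  have hba1 : a * (b / a) = b := by field_simp
  have hba2 : 1 ≤ b / a := (one_le_div ha).2 hab.le
  -- the numbers of the stages
  have hxa : ∀ k ≤ M, x k ≤ a := by
    intro k
    induction k with
    | zero => intro _; rw [HS.x0]
    | succ k ih => exact fun hk => (HS.xs k (by omega)).le.trans (ih (by omega))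
  have hττ : ∀ k ≤ M, (τ k : ℝ) ≤ τ 0 := by
    intro k
    induction k with
    | zero => exact fun _ => le_rfl
    | succ k ih =>
      exact fun hk => le_trans (by exact_mod_cast HS.τs k (by omega)) (ih (by omega))
  have hxlt : ∀ k < M, x (k + 1) < a := fun k hk => (HS.xs k hk).trans_le (hxa k hk.le)
  have hτ1 : ∀ k ≤ M, (1 : ℝ) ≤ τ k := fun k hk => by exact_mod_cast (HS.pos k hk).2.1
  obtain ⟨Rk, hRk⟩ : ∃ Rk, Rk = stR a x (fun i => (τ i : ℝ)) := ⟨_, rfl⟩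
  have hRk' : ∀ k, Rk k = (a - x (k + 1)) * τ (k + 1) / a := fun k => by rw [hRk]; rfl
  have hRa : ∀ k, a * Rk k = (a - x (k + 1)) * τ (k + 1) := fun k => by
    rw [hRk', mul_div_cancel₀ _ ha.ne']
  have hRb : ∀ k, b * Rk k = (b - x (k + 1) * (b / a)) * τ (k + 1) := fun k => by
    rw [hRk']
    field_simp
  have hR0 : ∀ k < M, 0 < Rk k := fun k hk => by
    rw [hRk']
    have h1 := hxlt k hk
    have h2 := hτ1 (k + 1) hk
    have h3 : 0 < (a - x (k + 1)) * (τ (k + 1) : ℝ) := mul_pos (by linarith only [h1])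
      (by linarith only [h2])
    positivity
  have hτ0 : (1 : ℝ) ≤ τ 0 := hτ1 0 (Nat.zero_le M)
  have hRτ : ∀ k < M, Rk k ≤ τ 0 := fun k hk => by
    have h1 := (HS.pos (k + 1) hk)
    have h2 := hττ (k + 1) hk
    have h3 : a * Rk k ≤ a * τ 0 := by
      rw [hRa]
      have h4 : (a - x (k + 1)) * (τ (k + 1) : ℝ) ≤ a * τ (k + 1) :=
        mul_le_mul_of_nonneg_right (by linarith only [h1.1]) (by positivity)
      exact h4.trans (mul_le_mul_of_nonneg_left h2 ha.le)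
    exact le_of_mul_le_mul_left h3 ha
  -- the stages
  have H := fun (k : ℕ) (hk : k < M) (η' : ℝ) (hη' : 0 < η') =>
    stage_recd (r := r) (D := D) hr (a := a) (b := b) (x := x k) (x' := x (k + 1))
      (y := x k * (b / a)) (y' := x (k + 1) * (b / a)) (τ := (τ k : ℝ)) (τ' := (τ (k + 1) : ℝ))
      (R := Rk k) (h := h) (η' := η') ha1 hab (HS.pos (k + 1) hk).1 (HS.xs k hk) (hxa k hk.le)
      (mul_pos (HS.pos (k + 1) hk).1 hba) (mul_lt_mul_of_pos_right (HS.xs k hk) hba)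
      (by
        have h1 := mul_le_mul_of_nonneg_right (hxa k hk.le) hba.le
        rw [hba1] at h1
        exact h1) (hR0 k hk) (hRa k) (hRb k) (hτ1 (k + 1) hk) (HS.pos (k + 1) hk).2.2
      (by
        have h1 := HS.pos (k + 1) hk
        have h3 : 0 ≤ x (k + 1) * (τ (k + 1) : ℝ) := mul_nonneg h1.1.le (Nat.cast_nonneg _)
        have h4 := mul_le_mul_of_nonneg_right hba2 h3
        linarith only [h1.2.2, h4])
      (HS.u1 k hk) (HS.n1 k hk) (HS.t1 k hk) (HS.t2 k hk) (HS.t3 k hk) (HS.t4 k hk) hh hh1 hη'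
  choose! δf hδf N₀f hN₀f HP using H
  obtain ⟨η, hηM, hη0, hηs⟩ := back_rec M (dd / 2) (half_pos hdd) Rk hR0
    (fun k y => δf k (y / 2)) (fun k hk y hy => hδf k hk (y / 2) (half_pos hy))
  obtain ⟨δ, hδE⟩ : ∃ δ : ℕ → ℝ, δ = fun k => δf k (η (k + 1) / 2) := ⟨_, rfl⟩
  obtain ⟨N₀, hN₀E⟩ : ∃ N₀ : ℕ → ℕ, N₀ = fun k => N₀f k (η (k + 1) / 2) := ⟨_, rfl⟩
  have hδk : ∀ k, δ k = δf k (η (k + 1) / 2) := fun k => by rw [hδE]
  have hN₀k : ∀ k, N₀ k = N₀f k (η (k + 1) / 2) := fun k => by rw [hN₀E]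
  have hδ0 : ∀ k < M, 0 < δ k := fun k hk => by
    rw [hδk]
    exact hδf k hk _ (half_pos (hη0 (k + 1) hk))
  have hηk : ∀ k < M, η k = δ k * Rk k / 2 := fun k hk => by
    rw [hηs k hk, hδk]
  -- the accuracy
  obtain ⟨γ₂, hγ₂, hg1⟩ := pos_lb (Finset.range M) (fun k => δ k * Rk k) (fun k hk =>
    mul_pos (hδ0 k (Finset.mem_range.1 hk)) (hR0 k (Finset.mem_range.1 hk)))
  obtain ⟨γ₃, hγ₃, hg2⟩ := pos_lb (Finset.range M) δ (fun k hk => hδ0 k (Finset.mem_range.1 hk))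
  have g1 : ∀ k < M, γ₂ ≤ δ k * Rk k := fun k hk => hg1 k (Finset.mem_range.2 hk)
  have g2 : ∀ k < M, γ₃ ≤ δ k := fun k hk => hg2 k (Finset.mem_range.2 hk)
  obtain ⟨γ₁, hγ₁⟩ : ∃ γ₁, γ₁ = min (γ₂ / (4 * (8 * r + 49))) (min (γ₃ / 4) (η 0 / 16)) :=
    ⟨_, rfl⟩
  have hη00 := hη0 0 (Nat.zero_le M)
  have hγ0 : 0 < γ₁ := by rw [hγ₁]; positivity
  have hγa : γ₁ * (4 * (8 * r + 49)) ≤ γ₂ := by
    have h1 : γ₁ ≤ γ₂ / (4 * (8 * r + 49)) := by
      rw [hγ₁]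
      exact min_le_left _ _
    rwa [le_div_iff₀ (by positivity)] at h1
  have hγb : γ₁ ≤ γ₃ / 4 := by
    rw [hγ₁]
    exact (min_le_right _ _).trans (min_le_left _ _)
  have hγc : γ₁ ≤ η 0 / 16 := by
    rw [hγ₁]
    exact (min_le_right _ _).trans (min_le_right _ _)
  refine ⟨δ, N₀, γ₁, hδ0, fun k hk => by
    rw [hN₀k]
    exact hN₀f k hk _ (half_pos (hη0 (k + 1) hk)), hγ0, ?_⟩
  intro S al g₀ P θ P₂ θ₂ Eb e₂ c Pt rt K₀ g L T Sl κ G S₀ N A V S₂ N' V' K' ε q t S₁ hne₁ hs₁ Rc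
    hκ hSa hSb hε hK₀ hcu e₀ ρ₀ π₀ μ hμ hρ₀ halt hnear hlab el dl k₀ hel hdl hdlb hful hk₀ Ψb vn
    En Rn Pn Pn' pe hΨs hΨl n wv pa₁ pa₂ d hex hwG ms hms hwy hwτ hwt hvn0 hvn1 hvn X φ kf ℓ e'
    hpe hPn hPn1 hV1 hV2 hV3 hV4 hX1 hX2 hφX hkf1 hkf2 hℓ1 hℓ2 hℓ3 hK1 hK2 hK3 hK4 hφ hφ8 hεφ he'
    he1 he2 hεe hbms hqμ pf pr hpf hpr hPn2 hPn3 hPn4 heγ helγ hdlγ C hC1 hC2 hIp
  have hq := Rc.q0
  have hτp : ∀ k ≤ M, (0 : ℝ) < τ k := fun k hk => by linarith only [hτ1 k hk]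
  have hXpos : 0 < X := by linarith only [hX2, ha, hτ0]
  have h3X : 0 < 3 ^ r * X := by positivity
  have hττ0 : (0 : ℝ) ≤ τ 0 := by linarith only [hτ0]
  have hτK : (τ 0 : ℝ) ≤ K' := by linarith only [hK2, h3X]
  have hβ0 : 0 < (⌊b⌋₊ : ℝ) + 1 - b := by linarith only [Nat.lt_floor_add_one b]
  have hpz : ∀ k < M, pzD (Rk k) b ≤ pzD (τ 0) b := fun k hk => by
    unfold pzD
    refine div_le_div_of_nonneg_right ?_ hβ0.le
    have := mul_le_mul_of_nonneg_right (hRτ k hk) hb.le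
    linarith only [this]
  have hpz0 : 0 ≤ pzD (τ 0) b := by
    unfold pzD
    positivity
  have hmemG : ∀ w : ℝ, (∃ j < N', V' j = w) → t + w * q ∈ G := fun w ⟨j, hj, e⟩ => by
    rw [← e]
    exact Rc.memG.2 j hj
  have htG : t ∈ G := by
    have h1 := hmemG 0 hV2
    rwa [zero_mul, add_zero] at h1
  have hch : ChG S₁ c (r + 1) (fun l x => L l x x) G := Pool.LA91.ChG.mk fun w hw => by
    obtain ⟨rd, h1, h2⟩ := hcu w hw
    exact ⟨_, rd, h1, h2.sub hs₁⟩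
  have hpf' : ∀ l < r, L l t t - φ * q ≤ pf l := fun l hl => (hpf l hl).1
  have hε1 : ε ≤ 1 / 16 := by linarith only [hεφ, hφ8]
  have hbτ : ∀ k ≤ M, b * (τ k : ℝ) ≤ b * τ 0 := fun k hk =>
    mul_le_mul_of_nonneg_left (hττ k hk) hb.le
  have hτq : ∀ k ≤ M, (τ k : ℝ) * q ≤ τ 0 * q := fun k hk =>
    mul_le_mul_of_nonneg_right (hττ k hk) hq.le
  have hlbf : LbF S₁ d ((range (r + 1)).image c) (c (r + 1)) D En Rn vn (Pn - e' * q) := by
    refine Bas.mono 0 hex ?_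
    rintro J - F A ⟨V, z, z', G', h1⟩
    have h2 := hΨl J F A _ _ _ _ h1.at.1
    exact h2.mono (Finset.Subset.refl _) le_rfl le_rfl le_rfl
      (Nat.floor_le_floor (mul_le_mul_of_nonneg_right hPn (Nat.cast_nonneg J)))
  -- the digits of the near path
  obtain ⟨Nk, hNk⟩ : ∃ Nk : ℕ → ℕ → ℕ → ℝ, Nk = fun k =>
    nfL C (t + -(τ (min (k + 1) M) : ℝ) * q) := ⟨_, rfl⟩
  have Nk1 : ∀ k < M, Nk k = nfL C (t + -(τ (k + 1) : ℝ) * q) := fun k hk => by
    rw [hNk]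
    show nfL C (t + -(τ (min (k + 1) M) : ℝ) * q) = _
    rw [min_eq_left (by omega : k + 1 ≤ M)]
  have Nk2 : Nk M = nfL C (t + -(τ M : ℝ) * q) := by
    rw [hNk]
    show nfL C (t + -(τ (min (M + 1) M) : ℝ) * q) = _
    rw [min_eq_right (by omega : M ≤ M + 1)]
  have NkP0 : ∀ k ≤ M, NfP r L X q t (τ k) (nfL C (t + -(τ k : ℝ) * q)) := by
    intro k hk l hl j hj
    have h1 := hC1 k hk l hl
    unfold nfL
    linarith only [h1]
  have Nlo : ∀ k ≤ M, ∀ l < r, ∀ j ≤ 1, L l t t + (aX r X l - τ 0 - 1) * q ≤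
      nfL C (t + -(τ k : ℝ) * q) l j + (j : ℕ) * t := by
    intro k hk l hl j hj
    have h1 := (nw_bd Rc (by omega : r < r + 2) hκ (X := X) (hτp k hk) ((hττ k hk).trans hτK) hl
      hj).1
    have h2 := hC1 k hk l hl
    have h3 := hτq k hk
    have h4 : ε * q ≤ 1 * q := mul_le_mul_of_nonneg_right (by linarith only [hε1]) hq.le
    unfold nfL
    linarith only [h1, h2, h3, h4]
  have Nhi : ∀ k ≤ M, ∀ l < r, ∀ j ≤ 1, nfL C (t + -(τ k : ℝ) * q) l j + (j : ℕ) * t ≤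
      L l t t + (aX r X l + 1) * q := by
    intro k hk l hl j hj
    obtain ⟨-, e1, h1⟩ := nw_bd Rc (by omega : r < r + 2) hκ (X := X) (hτp k hk)
      ((hττ k hk).trans hτK) hl hj
    have h1 := (abs_le.1 h1).2
    have h2 := hC2 k hk l hl
    have h4 : ε * q ≤ 1 / 2 * q := mul_le_mul_of_nonneg_right (by linarith only [hε1]) hq.le
    have h6 : (0 : ℝ) ≤ (1 - (j : ℕ)) * ((τ k : ℝ) * q) := by
      have h7 : (j : ℝ) ≤ 1 := by exact_mod_cast hj
      exact mul_nonneg (by linarith only [h7]) (mul_nonneg (hτp k hk).le hq.le)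
    unfold nfL
    linarith only [e1, h1, h2, h4, h6]
  have Nmo : ∀ k k' : ℕ, k ≤ k' → k' ≤ M → ∀ l < r, ∀ j ≤ 1,
      nfL C (t + -(τ k : ℝ) * q) l j ≤ nfL C (t + -(τ k' : ℝ) * q) l j := by
    intro k k' hkk hk' l hl j hj
    have h1 : (τ k' : ℝ) ≤ τ k := by
      induction k' with
      | zero =>
        obtain rfl : k = 0 := by omega
        exact le_rfl
      | succ k' ih =>
        rcases Nat.lt_or_ge k (k' + 1) with h2 | h2
        · exact le_trans (by exact_mod_cast HS.τs k' (by omega)) (ih (by omega) (by omega))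
        · obtain rfl : k = k' + 1 := by omega
          exact le_rfl
    have h3 : (0 : ℝ) ≤ (1 - (j : ℕ)) * (((τ k : ℝ) - τ k') * q) := by
      have h7 : (j : ℝ) ≤ 1 := by exact_mod_cast hj
      exact mul_nonneg (by linarith only [h7]) (mul_nonneg (by linarith only [h1]) hq.le)
    unfold nfL
    linarith only [h3]
  -- the states
  have key : ∀ k ≤ M, StU S₁ c r (max D D * max 1 D) L q t pf (Nk k) (e' * q) (x k) (τ k) (η k) ∧
      StD S₁ c r (max D D * max 1 D) L q t d vn pf (Nk k) (e' * q) (x k * (b / a)) (τ k)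
        (η k) := by
    intro k
    induction k with
    | zero =>
      intro _
      have hNf : NfP r L X q t (τ 0) (Nk 0) := by
        intro l hl j hj
        refine (NkP0 0 (Nat.zero_le M) l hl j hj).trans ?_
        rw [hNk]
        exact Nmo 0 (min (0 + 1) M) (Nat.zero_le _) (min_le_right _ _) l hl j hj
      rw [HS.x0, hba1]
      have hK0 : 2 * ((a + (max D D * max 1 D : ℕ) + 8) * τ 0) + 8 ≤ X := by
        have h1 : 0 ≤ b * τ 0 := mul_nonneg hb.le hττ0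
        linarith only [hX1, h1]
      constructor
      · exact base_recu (max D D * max 1 D) r ha hτ0 Rc (by omega) hκ hSa hch (X := X) (φ := φ)
          (kf := kf) (ℓ := ℓ) hφ hφ8 hφX hK0 hkf1 hℓ1 (by linarith only [hK1])
          (by linarith only [hK2]) hεφ hε.le htG
          (fun i hi => hmemG _ (hV4 0 (Nat.zero_le M) i hi)) hpf' hNf he'
          (by linarith only [he1, hφ]) hη00 (heγ.trans hγc)
      · have hq1 : q ≤ 1 := by
          have h1 := Rc.t0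
          have h2 := Rc.t1
          have h3 : 1 * q ≤ K' * q := mul_le_mul_of_nonneg_right (by linarith only [hK2, h3X, hτ0])
            hq.le
          linarith only [h1, h2, h3]
        have h4 : 0 ≤ pzD (τ 0) b * q := mul_nonneg hpz0 hq.le
        exact base_recd (max D D * max 1 D) r Rc.tmc hq hq1 hvn0 hvn1
          (by linarith only [hvn, h4]) hlbf hPn4 he' hη00 (heγ.trans hγc)
    | succ k ih =>
      intro hk
      have hkM : k < M := hk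
      obtain ⟨SU, SD⟩ := ih (by omega)
      rw [hηk k hkM, hδk, Nk1 k hkM] at SU SD
      have HIk := hIp k hkM
      rw [hδk, hN₀k, ← hRk] at HIk
      have g1k := g1 k hkM
      have g2k := g2 k hkM
      rw [hδk] at g1k g2k
      have hτk := hττ (k + 1) hk
      have hbk := hbτ (k + 1) hk
      have hτqk := hτq (k + 1) hk
      have hak : (a + b + (max D D * max 1 D : ℕ) + 8) * (τ (k + 1) : ℝ) ≤
          (a + b + (max D D * max 1 D : ℕ) + 8) * τ 0 :=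
        mul_le_mul_of_nonneg_left hτk (by positivity)
      have hLv : L (r + 1) (t + -(τ (k + 1) : ℝ) * q) (t + -(τ (k + 1) : ℝ) * q) ≤
          L (r + 1) t t - b * (τ (k + 1) : ℝ) * q + ε * q := by
        have h1 := Rc.dL (r + 1) (by omega) (t + -(τ (k + 1) : ℝ) * q) (by
          rw [add_sub_cancel_left, neg_mul, abs_neg, abs_of_pos (mul_pos (hτp (k + 1) hk) hq)]
          exact mul_le_mul_of_nonneg_right (hτk.trans hτK) hq.le)
        rw [hSb] at h1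
        linarith only [(abs_le.1 h1).2]
      have he3 : e' * (4 * (8 * r + 49)) ≤ δf k (η (k + 1) / 2) * Rk k :=
        (mul_le_mul_of_nonneg_right heγ (by positivity)).trans (hγa.trans g1k)
      have he4 : γ₁ * (4 * (8 * r + 49)) ≤ δf k (η (k + 1) / 2) * Rk k := hγa.trans g1k
      have hrγ : 0 ≤ (r : ℝ) * γ₁ := mul_nonneg hr0 hγ0.le
      have hre : 0 ≤ (r : ℝ) * e' := mul_nonneg hr0 he'.le
      have hst := HP k hkM (η (k + 1) / 2) (half_pos (hη0 (k + 1) hk)) (S := S) hne₁ hs₁ Rc hκ hSa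
        hSb hε hK₀ hcu hμ hρ₀ halt hnear hlab hel hdl hdlb hful
        (by
          have h1 : (K₀ + (τ (k + 1) : ℝ)) * q ≤ (K₀ + τ 0) * q :=
            mul_le_mul_of_nonneg_right (by linarith only [hτk]) hq.le
          exact h1.trans hk₀) hΨs hΨl hex hwG hms
        (fun y h1 h2 => hwy y (by linarith only [h1, hτk]) h2) (hwτ (k + 1) hk) hwt hvn0
        (by
          have h1 : pzD (Rk k) b * q ≤ pzD (τ 0) b * q :=
            mul_le_mul_of_nonneg_right (hpz k hkM) hq.le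
          linarith only [h1, hvn, hτqk]) (X := X) (φ := φ) (kf := kf) (ℓ := ℓ) (e' := e') hpe hPn
        hPn1 (hV1 (k + 1) hk) hV2 hV3 (hV4 (k + 1) hk) (by linarith only [hX1, hak]) hφX hkf1
        (by linarith only [hkf2, hbk]) (by linarith only [hℓ1, hτk]) (by linarith only [hℓ2, hτk])
        (by linarith only [hℓ3, hτk, hbk]) hK1 (by linarith only [hK2, hτk])
        (by
          have h1 : (a + b) * (τ (k + 1) : ℝ) ≤ (a + b) * τ 0 :=
            mul_le_mul_of_nonneg_left hτk (by positivity)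
          linarith only [h1, hK3]) (by linarith only [hK4, hτk]) hφ hφ8 hεφ he' he1 he2 hεe hbms
        (by
          have h1 : (2 * (b * (τ (k + 1) : ℝ)) + 4) * q ≤ (2 * (b * τ 0) + 4) * q :=
            mul_le_mul_of_nonneg_right (by linarith only [hbk]) hq.le
          exact h1.trans hqμ) hpf' (NkP0 (k + 1) hk) hPn2
        (by
          have h1 : ((τ (k + 1) : ℝ) + 1) * q ≤ (b * τ 0 + τ 0 + 3) * q :=
            mul_le_mul_of_nonneg_right (by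
              have := mul_nonneg hb.le hττ0
              linarith only [hτk, this]) hq.le
          linarith only [h1, hPn3])
        (by
          have h1 : 0 ≤ b * τ 0 * q := mul_nonneg (mul_nonneg hb.le hττ0) hq.le
          have h2 : 0 ≤ τ 0 * q := mul_nonneg hττ0 hq.le
          have h3 : ε * q ≤ 1 * q := mul_le_mul_of_nonneg_right (by linarith only [hε1]) hq.le
          linarith only [hLv, hPn3, h1, h2, h3, hq])
        (by linarith only [he3])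
        (by
          have h1 : el * (2 * (K₀ + (τ (k + 1) : ℝ))) ≤ el * (2 * (K₀ + τ 0)) :=
            mul_le_mul_of_nonneg_left (by linarith only [hτk]) hel
          linarith only [h1, helγ, he4, hrγ, hγ0])
        (by linarith only [hdlγ, hγb, g2k]) (by linarith only [he3, hre, he'])
        HIk SU SD
      rw [← Nk1 k hkM] at hst
      have hNk1 : Nk (k + 1) = nfL C (t + -(τ (min (k + 1 + 1) M) : ℝ) * q) := by
        rw [hNk]
      exact st_trd Rc hch htG (X := X) (Tn := τ 0) (hτp 0 (Nat.zero_le M)) hφ hφ8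
        (by linarith only [hX2, ha]) (by linarith only [hK2, hττ0]) hpf
        (by
          rw [Nk1 k hkM, hNk1]
          exact Nmo (k + 1) _ (le_min (by omega) hk) (min_le_right _ _))
        (by
          rw [hNk1]
          exact Nlo _ (min_le_right _ _))
        (by
          rw [Nk1 k hkM]
          exact Nhi (k + 1) hk) he' (by linarith only [he1, hφ])
        (show η (k + 1) / 2 < η (k + 1) by linarith only [hη0 (k + 1) hk]) hst.1 hst.2
  obtain ⟨SU, -⟩ := key M le_rfl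
  rw [Nk2] at SU
  have hxM : x M < 1 := by
    by_contra h1
    have h3 : (1 - x M) * (τ M : ℝ) ≤ 0 := mul_nonpos_of_nonpos_of_nonneg
      (by linarith only [not_lt.1 h1]) (Nat.cast_nonneg _)
    linarith only [HS.fin, h3, ha]
  have hτM := hττ M le_rfl
  have hakM : (a + (max D D * max 1 D : ℕ) + 8) * (τ M : ℝ) ≤
      (a + (max D D * max 1 D : ℕ) + 8) * τ 0 :=
    mul_le_mul_of_nonneg_left hτM (by positivity)
  have hbt0 : 0 ≤ b * τ 0 := mul_nonneg hb.le hττ0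
  exact fin_recd (max D D * max 1 D) r ha (hτ1 M le_rfl) hxM HS.fin Rc (by omega) hκ hch (X := X)
    (φ := φ) (kf := kf) (ℓ := ℓ) hφ hφ8 hφX (by linarith only [hX1, hakM, hbt0])
    (by linarith only [hX2, hτM]) hkf1 (by linarith only [hℓ1, hτM]) (by linarith only [hK1])
    (by linarith only [hK2, hτM]) hεφ htG (fun i hi => hmemG _ (hV4 M le_rfl i hi)) hpf' hpr
    (NkP0 M le_rfl) he' (by linarith only [he1, hφ]) (η := η M) (dd := dd)
    (by rw [hηM]; linarith only [hdd]) SU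

end Pool.PN18
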