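import Pool.Agent.H33.PN.Stm
import Pool.Agent.H63.JAB.Thr

/-!
# The numbers of the stages exist, the slope of the place smaller

`stgm_ex`: from `thr_ex` for the slopes exchanged, the times rounded up.
-/

set_option autoImplicit false

namespace Pool.PN18

/-- **The numbers of the stages** exist, the times natural numbers. -/
theorem stgm_ex {a b : ℝ} (ha : 1 < a) (hab : a < b) (K : ℕ) :
    ∃ (M : ℕ) (x : ℕ → ℝ) (τ : ℕ → ℕ), StgM a b K M x τ := by
  have ha0 : 0 < a := by linarith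
  have hb0 : 0 < b := by linarith
  obtain ⟨M, x', τ', h0, h1, h2, h3, h4, h5, h6, h7, h8, h9, h10⟩ :=
    thr_ex (ha.trans hab) ha0 hab K
  have hab0 : 0 < a / b := div_pos ha0 hb0
  have hab1 : a / b ≤ 1 := (div_le_one hb0).2 hab.le
  obtain ⟨Lam, hLam⟩ : ∃ Lam : ℝ, Lam = (K + 4) / 2 := ⟨_, rfl⟩
  have hK : (0 : ℝ) ≤ K := Nat.cast_nonneg K
  have hL1 : 1 ≤ Lam := by
    rw [hLam]
    linarith
  have hL2 : 2 * Lam = K + 4 := by
    rw [hLam]
    ring
  obtain ⟨x, hx⟩ : ∃ x : ℕ → ℝ, x = fun k => x' k * (a / b) := ⟨_, rfl⟩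
  obtain ⟨τ, hτ⟩ : ∃ τ : ℕ → ℕ, τ = fun k => ⌈Lam * τ' k⌉₊ := ⟨_, rfl⟩
  have hxk : ∀ k, x k = x' k * (a / b) := fun k => by rw [hx]
  have hxb : ∀ k, x k * (b / a) = x' k := fun k => by
    rw [hxk]
    field_simp
  have hτk : ∀ k, τ k = ⌈Lam * τ' k⌉₊ := fun k => by rw [hτ]
  have lo : ∀ k, Lam * τ' k ≤ τ k := fun k => by
    rw [hτk]
    exact Nat.le_ceil _
  have up : ∀ k ≤ M, (τ k : ℝ) ≤ Lam * τ' k + 1 := fun k hk => by
    rw [hτk]
    have := h3 k hk
    exact (Nat.ceil_lt_add_one (mul_nonneg (by linarith) (by linarith [this.2.1]))).le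
  -- more digits at the later stage
  have up2 : ∀ k < M, ∀ y y' : ℝ, 0 < y → 0 < y' → y' ≤ K + 2 →
      y' * τ' (k + 1) + 2 ≤ y * τ' k → y' * τ (k + 1) + 2 ≤ y * τ k := by
    intro k hk y y' hy hy' hyK h
    have e1 : y' * τ (k + 1) ≤ y' * (Lam * τ' (k + 1) + 1) :=
      mul_le_mul_of_nonneg_left (up (k + 1) hk) hy'.le
    have e2 : y * (Lam * τ' k) ≤ y * τ k := mul_le_mul_of_nonneg_left (lo k) hy.le
    have e3 : Lam * (y' * τ' (k + 1) + 2) ≤ Lam * (y * τ' k) :=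
      mul_le_mul_of_nonneg_left h (by linarith)
    linarith only [e1, e2, e3, hL2, hyK]
  have dn2 : ∀ k, ∀ y : ℝ, y ≤ 0 → y * τ' k + 2 ≤ 0 → y * τ k + 2 ≤ 0 := by
    intro k y hy h
    have e1 : y * τ k ≤ y * (Lam * τ' k) := mul_le_mul_of_nonpos_left (lo k) hy
    have e2 : Lam * (y * τ' k + 2) ≤ 0 := mul_nonpos_of_nonneg_of_nonpos (by linarith) h
    linarith only [e1, e2, hL1]
  refine ⟨M, x, τ, ⟨?_, ?_, ?_, ?_, ?_, ?_, ?_, ?_, ?_, ?_, ?_⟩⟩
  · rw [hxk, h0]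
    field_simp
  · intro k hk
    rw [hxk, hxk]
    exact mul_lt_mul_of_pos_right (h1 k hk) hab0
  · intro k hk
    rw [hτk, hτk]
    exact Nat.ceil_mono (mul_le_mul_of_nonneg_left (h2 k hk) (by linarith))
  · intro k hk
    obtain ⟨p1, p2, p3⟩ := h3 k hk
    have hx0 : 0 < x k := by
      rw [hxk]
      exact mul_pos p1 hab0
    have e1 : (1 : ℝ) ≤ Lam * τ' k := by nlinarith
    refine ⟨hx0, ?_, ?_⟩
    · exact_mod_cast e1.trans (lo k)
    · have e2 : x k * (Lam * τ' k) ≤ x k * τ k := mul_le_mul_of_nonneg_left (lo k) hx0.le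
      have e3 : x k * (Lam * τ' k) = Lam * (a / b * (τ' k * x' k)) := by
        rw [hxk]
        ring
      have e4 : Lam * 1 ≤ Lam * (a / b * (τ' k * x' k)) :=
        mul_le_mul_of_nonneg_left p3 (by linarith)
      linarith only [e2, e3, e4, hL1]
  · intro k hk i i' q1 q2 q3 q4
    rw [hxk] at q1 q2 q3 q4
    exact h5 k hk i i' q1 q2 q3 q4
  · intro k hk j j' q1 q2 q3 q4
    rw [hxb] at q1 q2 q3 q4
    exact h4 k hk j j' q1 q2 q3 q4
  · intro k hk i hi hxi
    rw [hxk] at hxi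
    have q1 := h7 k hk i hi hxi
    have hi' : (i : ℝ) ≤ K + 2 := by exact_mod_cast hi
    have p1 := mul_pos (h3 (k + 1) hk).1 hab0
    have p2 := mul_lt_mul_of_pos_right (h1 k hk) hab0
    rw [hxk, hxk]
    exact up2 k hk _ _ (by linarith) (by linarith) (by linarith) q1
  · intro k hk j hj hxj
    rw [hxb] at hxj
    have q1 := h6 k hk j hj hxj
    have hj' : (j : ℝ) ≤ K + 2 := by exact_mod_cast hj
    have p1 := (h3 (k + 1) hk).1
    have p2 := h1 k hk
    rw [hxb, hxb]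
    exact up2 k hk _ _ (by linarith) (by linarith) (by linarith) q1
  · intro k hk i hi
    rw [hxk] at hi
    have q1 := h9 k hk i hi
    rw [hxk]
    exact dn2 (k + 1) _ (by linarith) q1
  · intro k hk j hj
    rw [hxb] at hj
    have q1 := h8 k hk j hj
    rw [hxb]
    exact dn2 (k + 1) _ (by linarith) q1
  · obtain ⟨p1, p2, -⟩ := h3 M le_rfl
    have e0 : 0 < 1 - x' M := by
      by_contra hcon
      have := mul_nonpos_of_nonpos_of_nonneg (not_lt.1 hcon) (by linarith : 0 ≤ τ' M)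
      linarith
    have e1 : x M ≤ x' M := by
      rw [hxk]
      exact mul_le_of_le_one_right p1.le hab1
    have e2 : (1 - x' M) * (Lam * τ' M) ≤ (1 - x M) * τ M :=
      mul_le_mul (by linarith) (lo M) (by nlinarith) (by linarith)
    have e3 : Lam * (b + 1) ≤ Lam * ((1 - x' M) * τ' M) :=
      mul_le_mul_of_nonneg_left h10 (by linarith)
    have e4 : 1 * (b + 1) ≤ Lam * (b + 1) := mul_le_mul_of_nonneg_right hL1 (by linarith)
    linarith only [e2, e3, e4, hab]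

end Pool.PN18
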