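import Pool.Agent.H88.PN.Util

/-! Project PM part 2: tools on partial sums and block decompositions (helper33). -/

set_option autoImplicit false

namespace PN
open MeasureTheory Complex ProbabilityTheory PM

lemma ps_total {n : ℕ} (g : Fin n → ℝ) {j : ℕ} (hj : n ≤ j) : ps g j = ∑ i, g i := by
  unfold ps
  refine Finset.sum_congr rfl fun i _ => ?_
  rw [if_pos (lt_of_lt_of_le i.2 hj)]

lemma ps_add {n : ℕ} (g h : Fin n → ℝ) (j : ℕ) : ps (fun i => g i + h i) j = ps g j + ps h j := by
  unfold ps
  rw [← Finset.sum_add_distrib]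
  refine Finset.sum_congr rfl fun i _ => ?_
  split_ifs <;> simp

lemma ps_sub {n : ℕ} (g h : Fin n → ℝ) (j : ℕ) : ps (fun i => g i - h i) j = ps g j - ps h j := by
  unfold ps
  rw [← Finset.sum_sub_distrib]
  refine Finset.sum_congr rfl fun i _ => ?_
  split_ifs <;> simp

lemma ps_mul {n : ℕ} (c : ℝ) (g : Fin n → ℝ) (j : ℕ) : ps (fun i => c * g i) j = c * ps g j := by
  unfold ps
  rw [Finset.mul_sum]
  refine Finset.sum_congr rfl fun i _ => ?_
  split_ifs <;> simp

lemma ps_const {n : ℕ} (c : ℝ) {j : ℕ} (hj : j ≤ n) : ps (fun _ : Fin n => c) j = j * c := by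
  unfold ps
  rw [Fin.sum_univ_eq_sum_range (fun i => if i < j then c else 0) n, Finset.sum_ite,
    Finset.sum_const_zero, add_zero, Finset.sum_const, nsmul_eq_mul]
  congr 2
  have : (Finset.range n).filter (fun i => i < j) = Finset.range j := by
    ext i
    simp only [Finset.mem_filter, Finset.mem_range]
    omega
  rw [this, Finset.card_range]

lemma ps_append {m k : ℕ} (g : Fin m → ℝ) (h : Fin k → ℝ) (j : ℕ) :
    ps (Fin.append g h) j = ps g j + ps h (j - m) := by
  unfold ps
  rw [Fin.sum_univ_add]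
  congr 1
  · refine Finset.sum_congr rfl fun i _ => ?_
    simp
  · refine Finset.sum_congr rfl fun i _ => ?_
    rw [Fin.append_right]
    have : (((Fin.natAdd m i : Fin (m + k)) : ℕ) < j) ↔ ((i : ℕ) < j - m) := by
      rw [Fin.val_natAdd]
      omega
    simp only [this]

lemma ps_rev {n : ℕ} (h : Fin n → ℝ) {k : ℕ} (hk : k ≤ n) :
    ps (fun i => -h (Fin.rev i)) k = -(ps h n - ps h (n - k)) := by
  have h1 : ps (fun i => -h (Fin.rev i)) k = ∑ i : Fin n, if n - k ≤ (i : ℕ) then -h i else 0 := by
    unfold ps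
    rw [← Equiv.sum_comp Fin.revPerm]
    refine Finset.sum_congr rfl fun i _ => ?_
    simp only [Fin.revPerm_apply, Fin.rev_rev]
    have : ((Fin.rev i : Fin n) : ℕ) < k ↔ n - k ≤ (i : ℕ) := by
      rw [Fin.val_rev]
      omega
    simp only [this]
  rw [h1]
  unfold ps
  rw [← Finset.sum_sub_distrib, ← Finset.sum_neg_distrib]
  refine Finset.sum_congr rfl fun i _ => ?_
  rw [if_pos i.2]
  by_cases h2 : n - k ≤ (i : ℕ)
  · rw [if_pos h2, if_neg (not_lt.mpr h2)]
    ring
  · rw [if_neg h2, if_pos (not_le.mp h2)]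
    ring

lemma measurable_append {m k : ℕ} :
    Measurable (fun p : (Fin m → ℝ) × (Fin k → ℝ) => Fin.append p.1 p.2) := by
  refine measurable_pi_lambda _ fun i => ?_
  refine Fin.addCases (fun j => ?_) (fun j => ?_) i
  · simp only [Fin.append_left]
    exact (measurable_pi_apply j).comp measurable_fst
  · simp only [Fin.append_right]
    exact (measurable_pi_apply j).comp measurable_snd

lemma measurable_negrev {n : ℕ} : Measurable (fun (h : Fin n → ℝ) (i : Fin n) => -h (Fin.rev i)) :=
  measurable_pi_lambda _ fun i => (measurable_pi_apply (Fin.rev i)).neg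

/-- reversal and change of sign -/
lemma mp_negrev (n : ℕ) :
    MeasurePreserving (fun (h : Fin n → ℝ) (i : Fin n) => -h (Fin.rev i))
      (Ga (Fin n)) (Ga (Fin n)) := by
  refine ⟨measurable_negrev, ?_⟩
  symm
  have hneg : Measure.map (fun x : ℝ => -x) (gaussianReal 0 1) = gaussianReal 0 1 := by
    rw [gaussianReal_map_neg, neg_zero]
  unfold Ga
  refine (Measure.pi_eq fun s hs => ?_)
  rw [Measure.map_apply measurable_negrev (MeasurableSet.univ_pi hs)]
  have : (fun (h : Fin n → ℝ) (i : Fin n) => -h (Fin.rev i)) ⁻¹' (Set.univ.pi s) =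
      Set.univ.pi fun i => (fun x : ℝ => -x) ⁻¹' s (Fin.rev i) := by
    ext h
    simp only [Set.mem_preimage, Set.mem_pi, Set.mem_univ, forall_true_left]
    constructor
    · intro H i
      have := H (Fin.rev i)
      rwa [Fin.rev_rev] at this
    · intro H i
      have := H (Fin.rev i)
      rwa [Fin.rev_rev] at this
  rw [this, Measure.pi_pi]
  rw [← Equiv.prod_comp Fin.revPerm]
  refine Finset.prod_congr rfl fun i _ => ?_
  simp only [Fin.revPerm_apply, Fin.rev_rev]
  rw [← Measure.map_apply measurable_neg (hs _)]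
  rw [hneg]

end PN
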